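import Mathlib

set_option autoImplicit false

/-! A second generating tree (states: a height and a decreasing list of marks). The number of
descendants is multiplicative. -/

namespace Pool.Agent.R121.Fish

open Finset PowerSeries

/-- new height -/
def nx : ℕ → List ℕ → ℕ → ℕ
  | h, [], _ => h
  | h, r :: rs, x => if r ≤ x then h else nx r rs x

/-- transfer operator: `r` is the largest mark -/
def T3 (f : ℕ → ℕ → List ℕ → ℤ) (h r : ℕ) (rs : List ℕ) : ℤ :=
  ∑ x ∈ range (h + 2), f (if r < x then h + 1 else nx h (r :: rs) x) x
    ((r :: rs).filter fun y => y < x)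

/-- number of descendants -/
def F3 (n : ℕ) : ℕ → ℕ → List ℕ → ℤ := T3^[n] fun _ _ _ => 1

/-- good lists of marks -/
inductive Good : ℕ → List ℕ → Prop
  | base : Good 0 []
  | cons (r r' : ℕ) (rs : List ℕ) : Good r' rs → r' < r → Good r (r' :: rs)

lemma Good.lt {r : ℕ} {rs : List ℕ} (h : Good r rs) : ∀ y ∈ rs, y < r := by
  induction h with
  | base => simp
  | cons r r' rs h1 h2 ih =>
    intro y hy
    rcases List.mem_cons.1 hy with rfl | hy
    · exact h2
    · exact (ih y hy).trans h2

lemma Good.filter {r : ℕ} {rs : List ℕ} (h : Good r rs) : ∀ x, 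
    (x < r → Good x (rs.filter fun y => y < x)) := by
  induction h with
  | base => intro x hx; omega
  | cons r r' rs h1 h2 ih =>
    intro x hx
    by_cases h3 : r' < x
    · rw [List.filter_cons_of_pos (by simpa using h3)]
      have : rs.filter (fun y => decide (y < x)) = rs := by
        rw [List.filter_eq_self]
        intro y hy
        have := h1.lt y hy
        simp only [decide_eq_true_eq]
        omega
      rw [this]
      exact Good.cons _ _ _ h1 h3
    · rw [List.filter_cons_of_neg (by simpa using h3)]
      by_cases h4 : x < r'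
      · exact ih x h4
      · have : x = r' := by omega
        subst this
        have : rs.filter (fun y => decide (y < x)) = rs := by
          rw [List.filter_eq_self]
          intro y hy
          have := h1.lt y hy
          simpa using this
        rw [this]
        exact h1

lemma Good.nx {r : ℕ} {rs : List ℕ} (h : Good r rs) : ∀ x, x < r → x < nx r rs x ∧ nx r rs x ≤ r := by
  induction h with
  | base => intro x hx; omega
  | cons r r' rs h1 h2 ih =>
    intro x hx
    unfold Fish.nx
    split_ifs with h3
    · exact ⟨hx, le_rfl⟩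
    · have := ih x (by omega)
      exact ⟨this.1, by omega⟩

/-- series of the states with one mark -/
noncomputable def al (k : ℕ) : ℤ⟦X⟧ := PowerSeries.mk fun n => F3 n k 0 []

/-- series of a gap -/
noncomputable def ph (j : ℕ) : ℤ⟦X⟧ := 1 + X * ∑ i : Fin j, al (j - i) * ph i
termination_by j
decreasing_by exact i.2

lemma ph_eq (j : ℕ) : ph j = 1 + X * ∑ i ∈ range j, al (j - i) * ph i := by
  rw [ph, Finset.sum_range]

lemma ph_zero : ph 0 = 1 := by
  rw [ph_eq]
  simp

/-- product over the gaps -/
noncomputable def U : ℕ → List ℕ → ℤ⟦X⟧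
  | _, [] => 1
  | r, r' :: rs => ph (r - r') * U r' rs

/-- series of a state -/
noncomputable def W (h r : ℕ) (rs : List ℕ) : ℤ⟦X⟧ := al (h - r) * U r rs

/-- the children whose mark is below the largest mark -/
noncomputable def Bs (f : ℕ → ℕ → List ℕ → ℤ⟦X⟧) (r : ℕ) (rs : List ℕ) : ℤ⟦X⟧ :=
  ∑ x ∈ range r, f (nx r rs x) x (rs.filter fun y => y < x)

lemma U_eq {r : ℕ} {rs : List ℕ} (h : Good r rs) : U r rs = 1 + X * Bs W r rs := by
  induction h with
  | base => simp [U, Bs]
  | cons r r' rs h1 h2 ih =>
    have h3 : Bs W r (r' :: rs) = Bs W r' rs + ∑ i ∈ range (r - r'), al (r - r' - i) *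
        (ph i * U r' rs) := by
      unfold Bs
      have e1 : range r = range r' ∪ (range (r - r')).image fun i => r' + i := by
        ext z
        simp only [mem_range, mem_union, mem_image]
        constructor
        · intro hz
          by_cases h4 : z < r'
          · exact Or.inl h4
          · exact Or.inr ⟨z - r', by omega, by omega⟩
        · rintro (h4 | ⟨i, h4, rfl⟩) <;> omega
      rw [e1, sum_union, sum_image]
      · congr 1
        · apply sum_congr rfl
          intro x hx
          rw [mem_range] at hx
          rw [List.filter_cons_of_neg (by simp; omega)]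
          congr 1
          rw [nx, if_neg (by omega)]
        · apply sum_congr rfl
          intro i hi
          rw [mem_range] at hi
          have e2 : nx r (r' :: rs) (r' + i) = r := by
            rw [nx, if_pos (by omega)]
          rw [e2]
          unfold W
          have e3 : r - (r' + i) = r - r' - i := by omega
          rw [e3]
          congr 1
          have e4 : rs.filter (fun y => decide (y < r' + i)) = rs := by
            rw [List.filter_eq_self]
            intro y hy
            have := h1.lt y hy
            simp only [decide_eq_true_eq]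
            omega
          rcases Nat.eq_zero_or_pos i with rfl | hi0
          · rw [List.filter_cons_of_neg (by simp), e4, ph_zero, one_mul, add_zero]
          · rw [List.filter_cons_of_pos (by simp; omega), e4, U]
            congr 2
            omega
      · intro a _ b _ hab
        simpa using hab
      · rw [Finset.disjoint_left]
        intro z
        simp only [mem_range, mem_image]
        rintro h4 ⟨i, h5, h6⟩
        omega
    rw [U, h3, mul_add, ← add_assoc, ← ih]
    conv_lhs => rw [ph_eq]
    rw [add_mul, one_mul, mul_assoc, sum_mul]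
    congr 2
    apply sum_congr rfl
    intro i _
    ring

/-- sum over the children of a state -/
lemma T3_split (f : ℕ → ℕ → List ℕ → ℤ) {h r : ℕ} {rs : List ℕ} (hg : Good r rs) (hh : r ≤ h) :
    T3 f h r rs = ∑ x ∈ range r, f (nx r rs x) x (rs.filter fun y => y < x) + f h r rs +
      ∑ j ∈ range (h + 1 - r), f (h + 1) (r + 1 + j) (r :: rs) := by
  have e1 : range (h + 2) = range r ∪ ({r} ∪ (range (h + 1 - r)).image fun j => r + 1 + j) := by
    ext z
    simp only [mem_range, mem_union, mem_image, mem_singleton]
    constructor
    · intro hz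
      rcases lt_trichotomy z r with h4 | h4 | h4
      · exact Or.inl h4
      · exact Or.inr (Or.inl h4)
      · exact Or.inr (Or.inr ⟨z - (r + 1), by omega, by omega⟩)
    · rintro (h4 | h4 | ⟨i, h4, rfl⟩) <;> omega
  rw [T3, e1, sum_union, sum_union, sum_singleton, sum_image, ← add_assoc]
  · congr 1
    · congr 1
      · apply sum_congr rfl
        intro x hx
        rw [mem_range] at hx
        rw [if_neg (by omega), List.filter_cons_of_neg (by simp; omega), nx, if_neg (by omega)]
      · rw [if_neg (by omega), List.filter_cons_of_neg (by simp), nx, if_pos le_rfl]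
        congr 1
        rw [List.filter_eq_self]
        intro y hy
        have := hg.lt y hy
        simpa using this
    · apply sum_congr rfl
      intro j _
      rw [if_pos (by omega), List.filter_cons_of_pos (by simp; omega)]
      congr 2
      rw [List.filter_eq_self]
      intro y hy
      have := hg.lt y hy
      simp only [decide_eq_true_eq]
      omega
  · intro a _ b _ hab
    simpa using hab
  · rw [Finset.disjoint_left]
    intro z
    simp only [mem_singleton, mem_image, mem_range]
    rintro h1 ⟨x, h2, h3⟩
    omega
  · rw [Finset.disjoint_left]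
    intro z
    simp only [mem_union, mem_singleton, mem_image, mem_range]
    rintro h1 (h2 | ⟨x, h2, h3⟩) <;> omega

/-- series of the children -/
noncomputable def ch (h r : ℕ) (rs : List ℕ) : ℤ⟦X⟧ :=
  Bs W r rs + W h r rs + ∑ j ∈ range (h + 1 - r), W (h + 1) (r + 1 + j) (r :: rs)

lemma step3 {n : ℕ} (IH : ∀ h r rs, Good r rs → r ≤ h → F3 n h r rs = coeff n (W h r rs))
    {h r : ℕ} {rs : List ℕ} (hg : Good r rs) (hh : r ≤ h) :
    F3 (n + 1) h r rs = coeff n (ch h r rs) := by
  have e0 : F3 (n + 1) h r rs = T3 (F3 n) h r rs := by
    unfold F3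
    rw [Function.iterate_succ_apply']
  rw [e0, T3_split _ hg hh, ch, map_add, map_add, Bs, map_sum, map_sum]
  congr 1
  · congr 1
    · apply sum_congr rfl
      intro x hx
      rw [mem_range] at hx
      exact IH _ _ _ (hg.filter x hx) (hg.nx x hx).1.le
    · exact IH _ _ _ hg hh
  · apply sum_congr rfl
    intro j hj
    rw [mem_range] at hj
    exact IH _ _ _ (Good.cons _ _ _ hg (by omega)) (by omega)

/-- error term -/
noncomputable def Th (k : ℕ) : ℤ⟦X⟧ :=
  al k - 1 - X * (al k + ∑ j ∈ range (k + 1), al (k - j) * ph (j + 1))

lemma ch_zero (k : ℕ) : ch k 0 [] = al k + ∑ j ∈ range (k + 1), al (k - j) * ph (j + 1) := by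
  unfold ch Bs W U
  rw [Finset.sum_range_zero, zero_add, Nat.sub_zero, mul_one]
  congr 1
  apply sum_congr (by simp)
  intro j _
  rw [U, mul_one]
  congr 2 <;> omega

lemma X_ch {h r : ℕ} {rs : List ℕ} (hg : Good r rs) (hh : r ≤ h) :
    X * ch h r rs = W h r rs - 1 - U r rs * Th (h - r) := by
  have h1 := U_eq hg
  have h2 : ∑ j ∈ range (h + 1 - r), W (h + 1) (r + 1 + j) (r :: rs) =
      (∑ j ∈ range (h - r + 1), al (h - r - j) * ph (j + 1)) * U r rs := by
    rw [sum_mul]
    apply sum_congr
    · congr 1
      omega
    · intro j _
      unfold W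
      rw [U]
      have e1 : h + 1 - (r + 1 + j) = h - r - j := by omega
      have e2 : r + 1 + j - r = j + 1 := by omega
      rw [e1, e2]
      ring
  rw [ch, h2]
  unfold Th
  have h3 : X * Bs W r rs = U r rs - 1 := by
    rw [h1]
    ring
  have h4 : W h r rs = al (h - r) * U r rs := rfl
  rw [h4]
  linear_combination h3

lemma coeff_zero_al (k : ℕ) : coeff 0 (al k) = 1 := by
  simp [al, F3]

lemma coeff_zero_ph (j : ℕ) : coeff 0 (ph j) = 1 := by
  rw [ph_eq]
  simp

lemma coeff_zero_U (r : ℕ) (rs : List ℕ) : coeff 0 (U r rs) = 1 := by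
  induction rs generalizing r with
  | nil => simp [U]
  | cons r' rs ih =>
    have h1 := coeff_zero_ph (r - r')
    have h2 := ih r'
    rw [PowerSeries.coeff_zero_eq_constantCoeff_apply] at h1 h2 ⊢
    rw [U, map_mul, h1, h2, one_mul]

lemma main3 (n : ℕ) : ∀ h r rs, Good r rs → r ≤ h → F3 n h r rs = coeff n (W h r rs) := by
  induction n using Nat.strong_induction_on with
  | _ n ih =>
    intro h r rs hg hh
    cases n with
    | zero =>
      have h1 := coeff_zero_al (h - r)
      have h2 := coeff_zero_U r rs
      rw [PowerSeries.coeff_zero_eq_constantCoeff_apply] at h1 h2 ⊢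
      rw [W, map_mul, h1, h2]
      simp [F3]
    | succ n =>
      rw [step3 (ih n (by omega)) hg hh, ← coeff_succ_X_mul, X_ch hg hh, map_sub, map_sub]
      have h0 : coeff (n + 1) (1 : ℤ⟦X⟧) = 0 := by
        rw [coeff_one, if_neg (by omega)]
      have hT : (X : ℤ⟦X⟧) ^ (n + 2) ∣ Th (h - r) := by
        rw [X_pow_dvd_iff]
        intro m hm
        unfold Th
        rw [← ch_zero, map_sub, map_sub]
        cases m with
        | zero =>
          rw [coeff_zero_al, coeff_zero_X_mul, coeff_one, if_pos rfl]
          ring
        | succ m =>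
          rw [coeff_succ_X_mul, coeff_one, if_neg (by omega)]
          have := step3 (ih m (by omega)) Good.base (Nat.zero_le (h - r))
          rw [← this]
          simp [al]
      have h1 : coeff (n + 1) (U r rs * Th (h - r)) = 0 := by
        have h2 : (X : ℤ⟦X⟧) ^ (n + 2) ∣ U r rs * Th (h - r) := hT.mul_left _
        exact X_pow_dvd_iff.1 h2 (n + 1) (by omega)
      rw [h0, h1]
      ring

lemma al_eq (k : ℕ) : al k = 1 + X * al k + X * ∑ j ∈ range (k + 1), al (k - j) * ph (j + 1) := by
  have hT : Th k = 0 := by
    ext m
    unfold Th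
    rw [← ch_zero, map_sub, map_sub]
    cases m with
    | zero =>
      rw [coeff_zero_al, coeff_zero_X_mul, coeff_one, if_pos rfl]
      simp
    | succ m =>
      rw [coeff_succ_X_mul, coeff_one, if_neg (by omega)]
      have := step3 (main3 m) Good.base (Nat.zero_le k)
      rw [← this]
      simp [al]
  unfold Th at hT
  linear_combination hT

end Pool.Agent.R121.Fish
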