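import Pool.Agent.R121.Fish.Count2
import Pool.Agent.R121.Fish.Count3

set_option autoImplicit false

/-! Comparison of the two generating trees: both functional equations are evaluated in a ring in which
`x` is nilpotent, and a rational change of the catalytic variable maps one equation to the other. -/

namespace Pool.Agent.R121.Fish

open Finset PowerSeries

section ev

variable {B : Type*} [CommRing B]

lemma trunc_eval_coe {x : B} {N : ℕ} (hx : x ^ N = 0) (p : Polynomial B) :
    (trunc N (p : B⟦X⟧)).eval x = p.eval x := by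
  have h1 : (trunc N (p : B⟦X⟧)).eval x = ∑ i ∈ range N, p.coeff i * x ^ i := by
    rw [Polynomial.eval, eval₂_trunc_eq_sum_range]
    simp
  have h2 : p.eval x = ∑ i ∈ range (N + (p.natDegree + 1)), p.coeff i * x ^ i :=
    Polynomial.eval_eq_sum_range' (by omega) x
  rw [h1, h2, sum_range_add, left_eq_add]
  apply sum_eq_zero
  intro i _
  rw [pow_add, hx, zero_mul, mul_zero]

/-- evaluation of power series at a nilpotent element -/
noncomputable def ev (x : B) (N : ℕ) (hx : x ^ N = 0) : B⟦X⟧ →+* B where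
  toFun f := (trunc N f).eval x
  map_one' := by
    have := trunc_eval_coe hx (1 : Polynomial B)
    rwa [Polynomial.coe_one, Polynomial.eval_one] at this
  map_mul' f g := by
    rw [← trunc_trunc_mul_trunc, ← Polynomial.coe_mul, trunc_eval_coe hx, Polynomial.eval_mul]
  map_zero' := by simp
  map_add' f g := by simp

lemma ev_apply (x : B) (N : ℕ) (hx : x ^ N = 0) (f : B⟦X⟧) :
    ev x N hx f = ∑ i ∈ range N, coeff i f * x ^ i := by
  change (trunc N f).eval x = _
  rw [Polynomial.eval, eval₂_trunc_eq_sum_range]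
  simp

lemma ev_X (x : B) (N : ℕ) (hx : x ^ N = 0) : ev x N hx X = x := by
  change (trunc N X).eval x = _
  rw [← Polynomial.coe_X, trunc_eval_coe hx, Polynomial.eval_X]

lemma ev_C (x : B) (N : ℕ) (hx : x ^ N = 0) (b : B) : ev x N hx (C b) = b := by
  change (trunc N (C b)).eval x = _
  rw [← Polynomial.coe_C, trunc_eval_coe hx, Polynomial.eval_C]

lemma ev_dvd (x : B) (N : ℕ) (hx : x ^ N = 0) (d : B) (f : B⟦X⟧) (h : ∀ n, d ∣ coeff n f) :
    d ∣ ev x N hx f := by
  rw [ev_apply]
  exact dvd_sum fun i _ => (h i).mul_right _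

end ev

section tree2

variable {B : Type*} [CommRing B] (x : B) (N : ℕ) (hx : x ^ N = 0)

/-- the functional equation of the first tree -/
lemma fe2 (v : B) : (v - 1 - x * ev x N hx (Gs 1)) * ((1 - x) * ev x N hx (Gs v) - v) =
    x * v * ev x N hx (Gs v) * (v + x * ev x N hx (Gs v) - ev x N hx (Gs 1)) := by
  have h1 := congrArg (ev x N hx) (Gs_eq v)
  have h2 := congrArg (ev x N hx) (Gs_eq (1 : B))
  have h3 := congrArg (ev x N hx) (As_eq v)
  simp only [map_add, map_mul, map_sub, map_one, ev_X, ev_C] at h1 h2 h3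
  set g := ev x N hx (Gs 1)
  set y := ev x N hx (Gs v)
  set a := ev x N hx (As v)
  set a1 := ev x N hx (As 1)
  linear_combination x * y * h3 + (v - 1 - x * g) * h1 + x * v * y * h2

lemma Gs_dvd (v : B) : v - 1 ∣ ev x N hx (Gs v) - ev x N hx (Gs 1) := by
  rw [← map_sub]
  apply ev_dvd
  intro n
  rw [map_sub, Gs, Gs, coeff_mk, coeff_mk, G, G, ← E_sub']
  apply E_dvd
  intro h M
  exact sub_dvd_pow_sub_pow v 1 h

end tree2

section tree3

variable {B : Type*} [CommRing B] (x : B) (N : ℕ) (hx : x ^ N = 0)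

/-- value of `al k` -/
noncomputable def av (k : ℕ) : B := ev x N hx (PowerSeries.map (Int.castRingHom B) (al k))

/-- value of `ph k` -/
noncomputable def pv (k : ℕ) : B := ev x N hx (PowerSeries.map (Int.castRingHom B) (ph k))

lemma av_eq (k : ℕ) : av x N hx k = 1 + x * av x N hx k +
    x * ∑ j ∈ range (k + 1), av x N hx (k - j) * pv x N hx (j + 1) := by
  have h1 := congrArg (fun f => ev x N hx (PowerSeries.map (Int.castRingHom B) f)) (al_eq k)
  simp only [map_add, map_mul, map_one, map_sum, map_X, ev_X] at h1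
  exact h1

lemma pv_eq (j : ℕ) : pv x N hx j = 1 + x * ∑ i ∈ range j, av x N hx (j - i) * pv x N hx i := by
  have h1 := congrArg (fun f => ev x N hx (PowerSeries.map (Int.castRingHom B) f)) (ph_eq j)
  simp only [map_add, map_mul, map_one, map_sum, map_X, ev_X] at h1
  exact h1

/-- the functional equation of the second tree -/
lemma fe3 (t : B) : ∃ b b' : B, b = av x N hx 0 + x * t * b' ∧
    (1 + x * av x N hx 0 - x * b) * (b * (1 - x * t) * (1 + (1 - x) * t) - t) = b := by
  have hT : (x * t) ^ N = 0 := by rw [mul_pow, hx, zero_mul]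
  set a := av x N hx with ha
  set f := pv x N hx with hf
  set be : B⟦X⟧ := PowerSeries.mk a with hbe
  set be' : B⟦X⟧ := PowerSeries.mk fun k => a (k + 1) with hbe'
  set ps : B⟦X⟧ := PowerSeries.mk fun k => f (k + 1) with hps
  set fi : B⟦X⟧ := PowerSeries.mk f with hfi
  set io : B⟦X⟧ := PowerSeries.mk 1 with hio
  have r0 : io * (1 - X) = 1 := mk_one_mul_one_sub_eq_one B
  have r1 : be = io + C x * be + C x * (be * ps) := by
    ext k
    rw [map_add, map_add, coeff_C_mul, coeff_C_mul, coeff_mul,
      Finset.Nat.sum_antidiagonal_eq_sum_range_succ_mk]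
    simp only [hbe, hps, hio, coeff_mk, Pi.one_apply]
    conv_lhs => rw [ha, av_eq]
    congr 2
    rw [← Finset.sum_range_reflect]
    apply sum_congr rfl
    intro j hj
    rw [mem_range] at hj
    have e1 : k - (k + 1 - 1 - j) = j := by omega
    have e2 : k + 1 - 1 - j = k - j := by omega
    rw [e1, e2]
  have r2 : fi = io + C x * ((be - C (a 0)) * fi) := by
    ext j
    rw [map_add, coeff_C_mul, coeff_mul, Finset.Nat.sum_antidiagonal_eq_sum_range_succ_mk]
    simp only [hbe, hfi, hio, coeff_mk, Pi.one_apply, map_sub, coeff_C]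
    conv_lhs => rw [hf, pv_eq]
    congr 2
    rw [← Finset.sum_range_reflect, sum_range_succ', if_pos rfl, sub_self, zero_mul, add_zero]
    apply sum_congr rfl
    intro i hi
    rw [mem_range] at hi
    have e1 : j - (j - 1 - i) = i + 1 := by omega
    have e2 : j - 1 - i = j - (i + 1) := by omega
    rw [e1, e2, if_neg (by omega), sub_zero]
  have r3 : fi = 1 + X * ps := by
    ext j
    cases j with
    | zero =>
      rw [map_add, coeff_zero_X_mul, coeff_one, if_pos rfl, add_zero, hfi, coeff_mk, hf, pv_eq]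
      simp
    | succ j =>
      rw [map_add, coeff_succ_X_mul, coeff_one, if_neg (by omega), zero_add, hfi, hps, coeff_mk,
        coeff_mk]
  have r4 : be = C (a 0) + X * be' := by
    ext j
    cases j with
    | zero => rw [map_add, coeff_zero_X_mul, coeff_C, if_pos rfl, add_zero, hbe, coeff_mk]
    | succ j =>
      rw [map_add, coeff_succ_X_mul, coeff_C, if_neg (by omega), zero_add, hbe, hbe', coeff_mk,
        coeff_mk]
  have s0 := congrArg (ev (x * t) N hT) r0
  have s1 := congrArg (ev (x * t) N hT) r1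
  have s2 := congrArg (ev (x * t) N hT) r2
  have s3 := congrArg (ev (x * t) N hT) r3
  have s4 := congrArg (ev (x * t) N hT) r4
  simp only [map_add, map_mul, map_sub, map_one, ev_X, ev_C] at s0 s1 s2 s3 s4
  refine ⟨ev (x * t) N hT be, ev (x * t) N hT be', s4, ?_⟩
  set b := ev (x * t) N hT be
  set i0 := ev (x * t) N hT io
  set p := ev (x * t) N hT ps
  set q := ev (x * t) N hT fi
  have u1 : (1 - x) * b * (1 - x * t) = 1 + x * b * p * (1 - x * t) := by
    linear_combination (1 - x * t) * s1 + s0
  have u2 : q * (1 - x * t) * (1 + x * a 0 - x * b) = 1 := by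
    linear_combination (1 - x * t) * s2 + s0
  have u3 : b * (1 - x * t) * (1 + (1 - x) * t) - t = b * q * (1 - x * t) := by
    linear_combination t * u1 - b * (1 - x * t) * s3
  rw [u3]
  linear_combination b * u2

end tree3

/-- comparison in a ring with nilpotent `x` -/
theorem compare {S : Type*} [CommRing S] (x : S) (N : ℕ) (hx : x ^ N = 0)
    (hX : (Polynomial.C x) ^ N = 0) (hc : ∃ c : S, ev (Polynomial.C x) N hX (Gs (1 : Polynomial S)) -
      av (Polynomial.C x) N hX 0 = Polynomial.C c) :
    ev (Polynomial.C x) N hX (Gs (1 : Polynomial S)) = av (Polynomial.C x) N hX 0 := by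
  obtain ⟨c, hc⟩ := hc
  obtain ⟨b, b', hb, h3⟩ := fe3 (Polynomial.C x) N hX (Polynomial.X : Polynomial S)
  set y := Polynomial.C x with hy
  set t := (Polynomial.X : Polynomial S) with ht
  set g3 := av y N hX 0 with hg3
  set g2 := ev y N hX (Gs (1 : Polynomial S)) with hg2
  set v := (1 + (1 - y) * t) * (1 + y * g3 - y * b) with hv
  have h2 := fe2 y N hX v
  have hd := Gs_dvd y N hX v
  rw [← hg2] at h2 hd
  set G2 := ev y N hX (Gs v) with hG2
  set G3 := b * (1 + (1 - y) * t) with hG3
  have hv1 : v - 1 = t * (1 - y * (1 + y * b' * (1 + (1 - y) * t))) := by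
    rw [hv, hb]
    ring
  have h3' : (v - 1 - y * g3) * ((1 - y) * G3 - v) = y * v * G3 * (v + y * G3 - g3) := by
    rw [hv, hG3]
    linear_combination ((1 + (1 - y) * t) * (1 + y * g3) * (1 - y)) * h3
  have hnil : IsNilpotent y := ⟨N, hX⟩
  have hu1 : IsUnit (1 - y) := hnil.isUnit_one_sub
  have hu2 : IsUnit (1 - y * (1 + y * b' * (1 + (1 - y) * t))) := by
    apply IsNilpotent.isUnit_one_sub
    exact Commute.isNilpotent_mul_right (Commute.all _ _) hnil
  -- divisibility by powers of `x`
  have key : ∀ j : ℕ, y ^ j ∣ G2 - G3 ∧ y ^ j ∣ g2 - g3 := by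
    intro j
    induction j with
    | zero => simp
    | succ j ih =>
      obtain ⟨⟨p, hp⟩, ⟨q, hq⟩⟩ := ih
      have e1 : (1 - y) * (1 - y * (1 + y * b' * (1 + (1 - y) * t))) * (t * (G2 - G3)) =
          y ^ (j + 1) * (p * (g3 * (1 - y) + v ^ 2 + v * y * (G2 + G3) - v * g2) +
            q * ((1 - y) * G2 - v - v * G3)) := by
        have e2 : (v - 1) * (1 - y) * (G2 - G3) = y * ((G2 - G3) * (g3 * (1 - y) + v ^ 2 +
            v * y * (G2 + G3) - v * g2) + (g2 - g3) * ((1 - y) * G2 - v - v * G3)) := by
          linear_combination h2 - h3'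
        rw [hp, hq] at e2
        rw [hv1] at e2
        rw [hp]
        linear_combination e2
      have e3 : y ^ (j + 1) ∣ t * (G2 - G3) := by
        have e4 : y ^ (j + 1) ∣ (1 - y) * (1 - y * (1 + y * b' * (1 + (1 - y) * t))) *
            (t * (G2 - G3)) := Dvd.intro _ e1.symm
        exact ((hu1.mul hu2).dvd_mul_left).1 e4
      have e5 : y ^ (j + 1) ∣ G2 - G3 := by
        rw [hy, ← Polynomial.C_pow, Polynomial.C_dvd_iff_dvd_coeff] at e3 ⊢
        intro i
        have := e3 (i + 1)
        rwa [ht, Polynomial.coeff_X_mul] at this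
      refine ⟨e5, ?_⟩
      rw [hc]
      have e6 : t ∣ (G2 - G3) - (g2 - g3) := by
        have e7 : t ∣ G2 - g2 := (Dvd.intro _ hv1.symm).trans hd
        have e8 : t ∣ G3 - g3 := by
          refine ⟨b * (1 - y) + y * b', ?_⟩
          rw [hG3]
          linear_combination hb
        have : (G2 - G3) - (g2 - g3) = (G2 - g2) - (G3 - g3) := by ring
        rw [this]
        exact dvd_sub e7 e8
      rw [hc] at e6
      have e9 : c = (G2 - G3).coeff 0 := by
        obtain ⟨w, hw⟩ := e6
        have := congrArg (fun f => Polynomial.coeff f 0) hw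
        simp only [ht, Polynomial.coeff_sub, Polynomial.coeff_C_zero, Polynomial.coeff_X_mul_zero]
          at this
        rw [Polynomial.coeff_sub]
        linear_combination -this
      rw [hy, ← Polynomial.C_pow, Polynomial.C_dvd_iff_dvd_coeff] at e5 ⊢
      intro i
      rw [Polynomial.coeff_C]
      split_ifs with h0
      · rw [e9]
        exact e5 0
      · exact dvd_zero _
  have := (key N).2
  rw [hX, zero_dvd_iff, sub_eq_zero] at this
  exact this

/-- a hom can be moved inside the sum over paths -/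
lemma map_E {R S : Type*} [CommRing R] [CommRing S] (θ : R →+* S) (n : ℕ)
    (f : ℕ → Finset ℕ → R) : θ (E n f) = E n fun h M => θ (f h M) := by
  induction n generalizing f with
  | zero => rfl
  | succ n ih =>
    rw [E_succ, E_succ, ih]
    apply E_congr
    intro h M
    unfold T2
    rw [map_add, map_sum]

lemma Gs_one (R : Type*) [CommRing R] :
    Gs (1 : R) = PowerSeries.map (Int.castRingHom R) (Gs (1 : ℤ)) := by
  ext n
  rw [coeff_map, Gs, Gs, coeff_mk, coeff_mk, G, G, map_E]
  simp

/-- the two trees have the same numbers of nodes -/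
theorem G_eq_F3 (n : ℕ) : G n (1 : ℤ) = F3 n 0 0 [] := by
  set N := n + 1 with hN
  let I : Ideal ℤ⟦X⟧ := Ideal.span {(X : ℤ⟦X⟧) ^ N}
  let S := ℤ⟦X⟧ ⧸ I
  let x : S := Ideal.Quotient.mk I X
  have hx : x ^ N = 0 := by
    change (Ideal.Quotient.mk I X) ^ N = 0
    rw [← map_pow, Ideal.Quotient.eq_zero_iff_mem]
    exact Ideal.subset_span rfl
  have hX : (Polynomial.C x) ^ N = 0 := by
    rw [← Polynomial.C_pow, hx, Polynomial.C_0]
  have hev : ∀ f : ℤ⟦X⟧, ev (Polynomial.C x) N hX (PowerSeries.map (Int.castRingHom _) f) =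
      Polynomial.C (Ideal.Quotient.mk I f) := by
    intro f
    have h1 : Ideal.Quotient.mk I f = Ideal.Quotient.mk I (trunc N f : ℤ⟦X⟧) := by
      rw [Ideal.Quotient.eq, Ideal.mem_span_singleton, X_pow_dvd_iff]
      intro m hm
      rw [map_sub, Polynomial.coeff_coe, coeff_trunc, if_pos hm, sub_self]
    have h2 : ∀ p : Polynomial ℤ, Ideal.Quotient.mk I (p : ℤ⟦X⟧) =
        Polynomial.eval₂ (Int.castRingHom S) x p := by
      intro p
      have h3 : (Ideal.Quotient.mk I).comp (Polynomial.coeToPowerSeries.ringHom (R := ℤ)) =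
          Polynomial.eval₂RingHom (Int.castRingHom S) x := by
        apply Polynomial.ringHom_ext
        · intro a
          simp
        · simp [x]
      exact congrArg (fun θ => θ p) h3
    rw [h1, h2, eval₂_trunc_eq_sum_range, ev_apply, map_sum]
    apply sum_congr rfl
    intro i _
    simp
  have h1 := compare x N hx hX (by
    refine ⟨Ideal.Quotient.mk I (Gs (1 : ℤ) - al 0), ?_⟩
    rw [Gs_one, av, ← map_sub, ← map_sub, hev])
  rw [Gs_one, av, hev, hev] at h1
  have h2 := Polynomial.C_injective h1
  rw [Ideal.Quotient.eq, Ideal.mem_span_singleton, X_pow_dvd_iff] at h2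
  have h3 := h2 n (by omega)
  rw [map_sub, sub_eq_zero, Gs, al, coeff_mk, coeff_mk] at h3
  exact h3

end Pool.Agent.R121.Fish
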