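import Mathlib

set_option autoImplicit false

/-! A generating tree (states: a height `h` and a set `M` of marks) and its functional equation. -/

namespace Pool.Agent.R121.Fish

open Finset

section T2

variable {B : Type*} [CommRing B]

/-- transfer operator of the tree -/
def T2 {B : Type*} [AddCommMonoid B] (f : ℕ → Finset ℕ → B) (h : ℕ) (M : Finset ℕ) : B :=
  f h ∅ + ∑ x ∈ Icc 1 h, f (if x ∈ M then h else x + 1) (insert x (M.filter fun y => y < x))

/-- sum over the paths of length `n` from the root -/
def E {B : Type*} [AddCommMonoid B] (n : ℕ) (f : ℕ → Finset ℕ → B) : B := (T2^[n] f) 1 ∅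

lemma E_zero (f : ℕ → Finset ℕ → B) : E 0 f = f 1 ∅ := rfl

lemma E_succ (n : ℕ) (f : ℕ → Finset ℕ → B) : E (n + 1) f = E n (T2 f) := by
  unfold E
  rw [Function.iterate_succ_apply]

lemma T2_add (f g : ℕ → Finset ℕ → B) : T2 (f + g) = T2 f + T2 g := by
  funext h M
  simp only [T2, Pi.add_apply, sum_add_distrib]
  ring

lemma T2_smul (c : B) (f : ℕ → Finset ℕ → B) : T2 (c • f) = c • T2 f := by
  funext h M
  simp only [T2, Pi.smul_apply, smul_eq_mul, mul_sum, mul_add]

lemma E_add (n : ℕ) (f g : ℕ → Finset ℕ → B) : E n (f + g) = E n f + E n g := by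
  induction n generalizing f g with
  | zero => rfl
  | succ n ih => rw [E_succ, E_succ, E_succ, T2_add, ih]

lemma E_smul (n : ℕ) (c : B) (f : ℕ → Finset ℕ → B) : E n (c • f) = c * E n f := by
  induction n generalizing f with
  | zero => rfl
  | succ n ih => rw [E_succ, E_succ, T2_smul, ih]

lemma E_add' (n : ℕ) (f g : ℕ → Finset ℕ → B) :
    E n (fun h M => f h M + g h M) = E n f + E n g := E_add n f g

lemma E_sub' (n : ℕ) (f g : ℕ → Finset ℕ → B) :
    E n (fun h M => f h M - g h M) = E n f - E n g := by
  have h1 : (fun h M => f h M - g h M) = f + (-1 : B) • g := by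
    funext h M
    simp only [Pi.add_apply, Pi.smul_apply, smul_eq_mul]
    ring
  rw [h1, E_add, E_smul]
  ring

lemma E_mul_left (n : ℕ) (c : B) (f : ℕ → Finset ℕ → B) :
    E n (fun h M => c * f h M) = c * E n f := E_smul n c f

lemma E_mul_right (n : ℕ) (c : B) (f : ℕ → Finset ℕ → B) :
    E n (fun h M => f h M * c) = E n f * c := by
  have h1 : (fun h M => f h M * c) = fun h M => c * f h M := by
    funext h M
    ring
  rw [h1, E_mul_left, mul_comm]

lemma E_dvd (n : ℕ) (d : B) (f : ℕ → Finset ℕ → B) (H : ∀ h M, d ∣ f h M) : d ∣ E n f := by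
  induction n generalizing f with
  | zero => exact H _ _
  | succ n ih =>
    rw [E_succ]
    apply ih
    intro h M
    unfold T2
    apply dvd_add (H _ _)
    exact dvd_sum fun x _ => H _ _

/-- the heights at which a new lowest mark may be created -/
def okS (h : ℕ) (M : Finset ℕ) : Finset ℕ := (Icc 1 h).filter fun y => ∀ m ∈ M, y < m

/-- put a mark at height `y` below everything -/
def sh (y : ℕ) (f : ℕ → Finset ℕ → B) (h : ℕ) (M : Finset ℕ) : B :=
  f (h + y) (insert y (M.image fun m => m + y))

lemma okS_shift (y h : ℕ) (hy : 1 ≤ y) (M : Finset ℕ) :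
    okS (h + y) (insert y (M.image fun m => m + y)) = Icc 1 (y - 1) := by
  ext z
  simp only [okS, mem_filter, mem_Icc, mem_insert, mem_image, forall_eq_or_imp]
  constructor
  · rintro ⟨⟨h1, h2⟩, h3, _⟩
    omega
  · rintro ⟨h1, h2⟩
    refine ⟨⟨h1, by omega⟩, by omega, ?_⟩
    rintro m ⟨m', _, rfl⟩
    omega

lemma T2_shift (f : ℕ → Finset ℕ → B) (y h : ℕ) (hy : 1 ≤ y) (M : Finset ℕ) :
    sh y (T2 f) h M = T2 (sh y f) h M + f (h + y) ∅ + ∑ x ∈ Icc 1 (y - 1), f (x + 1) {x} := by
  have hs : Icc 1 (h + y) = Icc 1 (y - 1) ∪ ({y} ∪ (Icc 1 h).image fun x => x + y) := by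
    ext z
    simp only [mem_Icc, mem_union, mem_singleton, mem_image]
    constructor
    · rintro ⟨h1, h2⟩
      rcases lt_trichotomy z y with h3 | h3 | h3
      · exact Or.inl ⟨h1, by omega⟩
      · exact Or.inr (Or.inl h3)
      · exact Or.inr (Or.inr ⟨z - y, ⟨by omega, by omega⟩, by omega⟩)
    · rintro (h1 | h1 | ⟨x, h1, rfl⟩) <;> omega
  unfold sh
  rw [T2, hs, sum_union, sum_union, sum_singleton, sum_image]
  · have h1 : ∀ x ∈ Icc 1 (y - 1), f (if x ∈ insert y (M.image fun m => m + y) then h + y else x + 1)
        (insert x ((insert y (M.image fun m => m + y)).filter fun z => z < x)) = f (x + 1) {x} := by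
      intro x hx
      rw [mem_Icc] at hx
      rw [if_neg]
      · congr 1
        ext z
        simp only [mem_insert, mem_filter, mem_image, mem_singleton]
        constructor
        · rintro (h1 | ⟨h1 | ⟨m, _, rfl⟩, h2⟩) <;> omega
        · exact Or.inl
      · simp only [mem_insert, mem_image]
        rintro (h1 | ⟨m, _, h1⟩) <;> omega
    have h2 : f (if y ∈ insert y (M.image fun m => m + y) then h + y else y + 1)
        (insert y ((insert y (M.image fun m => m + y)).filter fun z => z < y)) =
        f (h + y) (insert y ((∅ : Finset ℕ).image fun m => m + y)) := by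
      rw [if_pos (mem_insert_self _ _)]
      congr 1
      ext z
      simp only [mem_insert, mem_filter, mem_image, notMem_empty, false_and, exists_false,
        or_false]
      constructor
      · rintro (h1 | ⟨h1 | ⟨m, _, rfl⟩, h2⟩) <;> omega
      · exact Or.inl
    have h3 : ∀ x ∈ Icc 1 h,
        f (if x + y ∈ insert y (M.image fun m => m + y) then h + y else x + y + 1)
        (insert (x + y) ((insert y (M.image fun m => m + y)).filter fun z => z < x + y)) =
        f ((if x ∈ M then h else x + 1) + y)
          (insert y ((insert x (M.filter fun z => z < x)).image fun m => m + y)) := by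
      intro x hx
      rw [mem_Icc] at hx
      congr 1
      · have : (x + y ∈ insert y (M.image fun m => m + y)) ↔ x ∈ M := by
          simp only [mem_insert, mem_image]
          constructor
          · rintro (h1 | ⟨m, h1, h2⟩)
            · omega
            · have : m = x := by omega
              rwa [← this]
          · intro h1
            exact Or.inr ⟨x, h1, rfl⟩
        by_cases hm : x ∈ M
        · rw [if_pos hm, if_pos (this.2 hm)]
        · rw [if_neg hm, if_neg (fun h => hm (this.1 h))]
          omega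
      · ext z
        simp only [mem_insert, mem_filter, mem_image]
        constructor
        · rintro (h1 | ⟨h1 | ⟨m, h1, rfl⟩, h2⟩)
          · exact Or.inr ⟨x, Or.inl rfl, h1.symm⟩
          · exact Or.inl h1
          · exact Or.inr ⟨m, Or.inr ⟨h1, by omega⟩, rfl⟩
        · rintro (h1 | ⟨m, h1 | ⟨h1, h2⟩, rfl⟩)
          · exact Or.inr ⟨Or.inl h1, by omega⟩
          · exact Or.inl (by omega)
          · exact Or.inr ⟨Or.inr ⟨m, h1, rfl⟩, by omega⟩
    rw [sum_congr rfl h1, h2, sum_congr rfl h3, T2]
    ring
  · intro a _ b _ hab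
    simpa using hab
  · rw [Finset.disjoint_left]
    intro z
    simp only [mem_singleton, mem_image, mem_Icc]
    rintro h1 ⟨x, h2, h3⟩
    omega
  · rw [Finset.disjoint_left]
    intro z
    simp only [mem_union, mem_singleton, mem_image, mem_Icc]
    rintro h1 (h2 | ⟨x, h2, h3⟩) <;> omega

lemma E_congr (n : ℕ) {f g : ℕ → Finset ℕ → B} (H : ∀ h M, f h M = g h M) : E n f = E n g := by
  have : f = g := by
    funext h M
    exact H h M
  rw [this]

/-- the first decomposition of paths -/
lemma E_decomp (n : ℕ) : ∀ f : ℕ → Finset ℕ → B, E (n + 1) f = E n (fun h _ => f h ∅) +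
    ∑ p ∈ antidiagonal n, E p.1 (fun h M => ∑ y ∈ okS h M, E p.2 (sh y f)) := by
  induction n with
  | zero =>
    intro f
    rw [E_succ, E_zero, E_zero, T2]
    simp [E_zero, sh, okS]
  | succ n ih =>
    intro f
    rw [E_succ, ih (T2 f), ih (fun h _ => f h ∅), Finset.Nat.sum_antidiagonal_succ']
    rw [ih (fun h M => ∑ y ∈ okS h M, E 0 (sh y f))]
    have e1 : (fun h (_ : Finset ℕ) => T2 f h ∅) = fun h (_ : Finset ℕ) => f h ∅ +
        ∑ y ∈ okS h ∅, E 0 (sh y f) := by
      funext h M
      rw [T2]
      congr 1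
      have : okS h ∅ = Icc 1 h := by
        simp [okS]
      rw [this]
      apply sum_congr rfl
      intro x _
      rw [E_zero]
      simp [sh, add_comm]
    rw [e1, E_add' n (fun h _ => f h ∅) (fun h _ => ∑ y ∈ okS h ∅, E 0 (sh y f))]
    have e2 : ∀ p ∈ antidiagonal n, E p.1 (fun h M => ∑ y ∈ okS h M, E p.2 (sh y (T2 f))) =
        E p.1 (fun h M => ∑ y ∈ okS h M, E (p.2 + 1) (sh y f)) +
        E p.1 (fun h M => ∑ y ∈ okS h M, E p.2 (sh y fun h _ => f h ∅)) +
        E p.1 (fun h M => ∑ y ∈ okS h M, E p.2 (sh y fun h M => ∑ y ∈ okS h M, E 0 (sh y f))) := by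
      intro p _
      rw [← E_add', ← E_add']
      apply E_congr
      intro h M
      rw [← sum_add_distrib, ← sum_add_distrib]
      apply sum_congr rfl
      intro y hy
      have hy1 : 1 ≤ y := by
        simp only [okS, mem_filter, mem_Icc] at hy
        exact hy.1.1
      rw [E_succ, ← E_add', ← E_add']
      apply E_congr
      intro h M
      rw [T2_shift f y h hy1 M]
      congr 1
      change _ = ∑ z ∈ okS (h + y) (insert y (M.image fun m => m + y)), E 0 (sh z f)
      rw [okS_shift y h hy1]
      apply sum_congr rfl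
      intro x _
      rw [E_zero]
      simp [sh, add_comm]
    rw [sum_congr rfl e2, sum_add_distrib, sum_add_distrib]
    ring

/-- weight `v ^ height` -/
def G (n : ℕ) (v : B) : B := E n fun h _ => v ^ h

/-- weight of the new lowest marks -/
def A (n : ℕ) (v : B) : B := E n fun h M => ∑ y ∈ okS h M, v ^ y

lemma G_zero (v : B) : G 0 v = v := by
  simp [G, E_zero]

lemma A_zero (v : B) : A 0 v = v := by
  simp [A, E_zero, okS]

lemma G_succ (n : ℕ) (v : B) : G (n + 1) v = G n v + ∑ p ∈ antidiagonal n, A p.1 v * G p.2 v := by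
  unfold G
  rw [E_decomp]
  congr 1
  apply sum_congr rfl
  intro p _
  unfold A
  rw [← E_mul_right]
  apply E_congr
  intro h M
  rw [sum_mul]
  apply sum_congr rfl
  intro y _
  rw [← E_mul_left]
  apply E_congr
  intro h M
  simp only [sh]
  rw [pow_add]
  ring

lemma geom_Icc (v : B) (h : ℕ) : (v - 1) * ∑ y ∈ Icc 1 h, v ^ y = v * (v ^ h - 1) := by
  induction h with
  | zero => simp
  | succ h ih =>
    rw [← Finset.insert_Icc_right_eq_Icc_add_one (by omega), sum_insert (by simp), mul_add, ih]
    ring

lemma A_succ (n : ℕ) (v : B) : (v - 1) * A (n + 1) v = v * (G n v - G n 1) +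
    ∑ p ∈ antidiagonal n, (A p.1 v - v * A p.1 1) * G p.2 1 := by
  have h1 : A (n + 1) v = E n (fun h _ => ∑ y ∈ Icc 1 h, v ^ y) +
      ∑ p ∈ antidiagonal n, E p.1 (fun h M => ∑ y ∈ okS h M, ∑ z ∈ Icc 1 (y - 1), v ^ z) *
        G p.2 1 := by
    unfold A
    rw [E_decomp]
    congr 1
    · apply E_congr
      intro h M
      simp [okS]
    · apply sum_congr rfl
      intro p _
      rw [← E_mul_right]
      apply E_congr
      intro h M
      rw [sum_mul]
      apply sum_congr rfl
      intro y hy
      have hy1 : 1 ≤ y := by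
        simp only [okS, mem_filter, mem_Icc] at hy
        exact hy.1.1
      unfold G
      rw [← E_mul_left]
      apply E_congr
      intro h M
      simp only [sh]
      rw [okS_shift y h hy1]
      simp
  rw [h1, mul_add, mul_sum, ← E_mul_left]
  congr 1
  · unfold G
    rw [← E_sub', ← E_mul_left]
    apply E_congr
    intro h M
    rw [geom_Icc]
    simp
  · apply sum_congr rfl
    intro p _
    rw [← mul_assoc, ← E_mul_left]
    congr 1
    unfold A
    rw [← E_mul_left, ← E_sub']
    apply E_congr
    intro h M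
    rw [mul_sum, mul_sum, ← sum_sub_distrib]
    apply sum_congr rfl
    intro y hy
    have hy1 : 1 ≤ y := by
      simp only [okS, mem_filter, mem_Icc] at hy
      exact hy.1.1
    rw [geom_Icc, one_pow, mul_one, mul_sub, mul_one]
    congr 1
    rw [← pow_succ']
    congr 1
    omega

open PowerSeries

/-- generating series -/
noncomputable def Gs (v : B) : B⟦X⟧ := PowerSeries.mk fun n => G n v

/-- generating series -/
noncomputable def As (v : B) : B⟦X⟧ := PowerSeries.mk fun n => A n v

lemma Gs_eq (v : B) : Gs v = C v + X * Gs v + X * (As v * Gs v) := by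
  ext n
  cases n with
  | zero => simp [Gs, G_zero]
  | succ n =>
    rw [map_add, map_add, coeff_succ_X_mul, coeff_succ_X_mul, coeff_mul]
    simp only [Gs, As, coeff_mk]
    rw [G_succ, coeff_C, if_neg (by omega)]
    ring

lemma As_eq (v : B) : (C v - 1) * As v = C v * (C v - 1) +
    X * (C v * (Gs v - Gs 1) + (As v - C v * As 1) * Gs 1) := by
  ext n
  rw [sub_mul, one_mul, map_sub, coeff_C_mul, ← map_one (C (R := B)), ← map_sub, ← map_mul,
    map_add]
  cases n with
  | zero => simp [As, A_zero]; ring
  | succ n =>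
    rw [coeff_succ_X_mul, map_add, coeff_C_mul, map_sub, coeff_mul, coeff_C, if_neg (by omega)]
    simp only [map_sub, coeff_C_mul]
    simp only [Gs, As, coeff_mk]
    rw [zero_add, ← A_succ]
    ring

end T2

end Pool.Agent.R121.Fish
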