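import Pool.Agent.R121.Fish.T2431

set_option autoImplicit false

/-! The generating tree of the Fishburn permutations avoiding `2413`. -/

namespace Pool.Agent.R121.Fish

open Finset Pool.Agent.R121

attribute [local instance 10] Classical.propDecidable

/-- occurrence of `241` with the site `u` between the values of `2` and `4` -/
def P2413 {n : ℕ} (τ : Equiv.Perm (Fin n)) (u : ℕ) : Prop :=
  ∃ i j k : Fin n, i < j ∧ j < k ∧ (τ k : ℕ) < τ i ∧ (τ i : ℕ) < u ∧ u ≤ τ j

/-- avoidance of `2413` -/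
def Av2413 {n : ℕ} (τ : Equiv.Perm (Fin n)) : Prop :=
  ∀ i j k l : Fin n, i < j → j < k → k < l →
    ¬ ((τ k : ℕ) < τ i ∧ (τ i : ℕ) < τ l ∧ (τ l : ℕ) < τ j)

/-- valid permutations -/
def V2413 (n : ℕ) (τ : Equiv.Perm (Fin n)) : Prop := Fsh τ ∧ Av2413 τ

/-- forbidden sites -/
def B2413 (n : ℕ) (τ : Equiv.Perm (Fin n)) (u : ℕ) : Prop := FB τ u ∨ P2413 τ u

lemma av2413_snocP {n : ℕ} (v : Fin (n + 1)) (τ : Equiv.Perm (Fin n)) :
    Av2413 (snocP v τ) ↔ Av2413 τ ∧ ¬ P2413 τ v := by
  constructor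
  · intro H
    constructor
    · intro i j k l h1 h2 h3 ⟨h4, h5, h6⟩
      apply H i.castSucc j.castSucc k.castSucc l.castSucc (by simpa using h1) (by simpa using h2)
        (by simpa using h3)
      rw [sv_cast, sv_cast, sv_cast, sv_cast]
      split_ifs <;> omega
    · rintro ⟨i, j, k, h1, h2, h3, h4, h5⟩
      apply H i.castSucc j.castSucc k.castSucc (Fin.last n) (by simpa using h1) (by simpa using h2)
        (Fin.castSucc_lt_last k)
      rw [sv_cast, sv_cast, sv_cast, sv_last]
      split_ifs <;> omega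
  · rintro ⟨H, hb⟩ i j k l h1 h2 h3 ⟨h4, h5, h6⟩
    induction k using Fin.lastCases with
    | last => exact absurd (lt_of_lt_of_le h3 (Fin.le_last _)) (lt_irrefl _)
    | cast k =>
      induction j using Fin.lastCases with
      | last => exact absurd (lt_of_lt_of_le h2 (Fin.le_last _)) (lt_irrefl _)
      | cast j =>
        induction i using Fin.lastCases with
        | last => exact absurd (lt_of_lt_of_le h1 (Fin.le_last _)) (lt_irrefl _)
        | cast i =>
          simp only [Fin.castSucc_lt_castSucc_iff] at h1 h2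
          induction l using Fin.lastCases with
          | last =>
            rw [sv_cast, sv_cast] at h4
            rw [sv_cast, sv_last] at h5
            rw [sv_cast, sv_last] at h6
            exact hb ⟨i, j, k, h1, h2, by split_ifs at h4 <;> omega, by split_ifs at h5 <;> omega,
              by split_ifs at h6 <;> omega⟩
          | cast l =>
            simp only [Fin.castSucc_lt_castSucc_iff] at h3
            rw [sv_cast, sv_cast] at h4 h5 h6
            exact H i j k l h1 h2 h3 ⟨by split_ifs at h4 <;> omega, by split_ifs at h5 <;> omega,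
              by split_ifs at h6 <;> omega⟩

lemma v2413_snocP (n : ℕ) (v : Fin (n + 1)) (τ : Equiv.Perm (Fin n)) :
    V2413 (n + 1) (snocP v τ) ↔ V2413 n τ ∧ ¬ B2413 n τ v := by
  unfold V2413 B2413
  rw [fsh_snocP, av2413_snocP]
  tauto

lemma p2413_snocP {m : ℕ} (v : Fin (m + 2)) (τ : Equiv.Perm (Fin (m + 1))) (u : ℕ) :
    P2413 (snocP v τ) u ↔ (u ≤ v ∧ P2413 τ u) ∨
      (v < u ∧ (P2413 τ (u - 1) ∨ ¬ K τ v (u - 1))) := by
  constructor
  · rintro ⟨i, j, k, h1, h2, h3, h4, h5⟩
    induction j using Fin.lastCases with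
    | last => exact absurd (lt_of_lt_of_le h2 (Fin.le_last _)) (lt_irrefl _)
    | cast j =>
      induction i using Fin.lastCases with
      | last => exact absurd (lt_of_lt_of_le h1 (Fin.le_last _)) (lt_irrefl _)
      | cast i =>
        simp only [Fin.castSucc_lt_castSucc_iff] at h1
        rw [sv_cast] at h4 h5
        induction k using Fin.lastCases with
        | last =>
          rw [sv_cast, sv_last] at h3
          have h6 : (v : ℕ) ≤ τ i := by split_ifs at h3 <;> omega
          rw [if_neg (by omega)] at h3 h4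
          right
          refine ⟨by omega, Or.inr ?_⟩
          intro H
          have := H i j h6 (by omega) (by split_ifs at h5 <;> omega)
          exact absurd (this.trans h1) (lt_irrefl _)
        | cast k =>
          simp only [Fin.castSucc_lt_castSucc_iff] at h2
          rw [sv_cast, sv_cast] at h3
          by_cases h6 : u ≤ v
          · exact Or.inl ⟨h6, ⟨i, j, k, h1, h2, by split_ifs at h3 <;> omega,
              by split_ifs at h4 <;> omega, by split_ifs at h5 <;> omega⟩⟩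
          · exact Or.inr ⟨by omega, Or.inl ⟨i, j, k, h1, h2, by split_ifs at h3 <;> omega,
              by split_ifs at h4 <;> omega, by split_ifs at h5 <;> omega⟩⟩
  · rintro (⟨h0, ⟨i, j, k, h1, h2, h3, h4, h5⟩⟩ | ⟨h0, ⟨i, j, k, h1, h2, h3, h4, h5⟩ | h1⟩)
    · refine ⟨i.castSucc, j.castSucc, k.castSucc, by simpa using h1, by simpa using h2, ?_, ?_, ?_⟩
      · rw [sv_cast, sv_cast]
        split_ifs <;> omega
      · rw [sv_cast]
        split_ifs <;> omega
      · rw [sv_cast]
        split_ifs <;> omega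
    · refine ⟨i.castSucc, j.castSucc, k.castSucc, by simpa using h1, by simpa using h2, ?_, ?_, ?_⟩
      · rw [sv_cast, sv_cast]
        split_ifs <;> omega
      · rw [sv_cast]
        split_ifs <;> omega
      · rw [sv_cast]
        split_ifs <;> omega
    · unfold K at h1
      push Not at h1
      obtain ⟨i, j, h2, h3, h4, h5⟩ := h1
      have hne : i ≠ j := by
        rintro rfl
        omega
      refine ⟨i.castSucc, j.castSucc, Fin.last _, by simpa using lt_of_le_of_ne h5 hne,
        Fin.castSucc_lt_last j, ?_, ?_, ?_⟩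
      · rw [sv_cast, sv_last]
        split_ifs <;> omega
      · rw [sv_cast]
        split_ifs <;> omega
      · rw [sv_cast]
        split_ifs <;> omega

lemma last_mem_act2413 {m : ℕ} (τ : Equiv.Perm (Fin (m + 1))) (h : V2413 (m + 1) τ) :
    (τ (Fin.last m) : ℕ) ∈ act B2413 m τ := by
  rw [mem_act]
  refine ⟨by have := (τ (Fin.last m)).2; omega, ?_⟩
  rintro (h1 | ⟨i, j, k, h1, h2, h3, h4, h5⟩)
  · exact not_fb_last τ h1
  · by_cases hk : k = Fin.last m
    · subst hk
      omega
    · have hk' : k < Fin.last m := lt_of_le_of_ne (Fin.le_last _) hk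
      have hj : j ≠ Fin.last m := by
        rintro rfl
        exact absurd (lt_of_lt_of_le h2 (Fin.le_last _)) (lt_irrefl _)
      have := val_ne τ hj
      exact h.2 i j k (Fin.last m) h1 h2 hk' ⟨h3, h4, by omega⟩

/-- below an allowed site the relation `K` starts at the last value -/
lemma K_last {m : ℕ} (τ : Equiv.Perm (Fin (m + 1))) {w : ℕ} (hw : w ∈ act B2413 m τ)
    (hLw : (τ (Fin.last m) : ℕ) < w) : K τ (τ (Fin.last m)) w := by
  intro i j h1 h2 h3
  by_contra h4
  rw [not_lt] at h4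
  have hne : i ≠ j := by
    rintro rfl
    omega
  have hij : i < j := lt_of_le_of_ne h4 hne
  have hj : j ≠ Fin.last m := by
    rintro rfl
    omega
  have hj' : j < Fin.last m := lt_of_le_of_ne (Fin.le_last _) hj
  have hi : i ≠ Fin.last m := (hij.trans hj').ne
  have := val_ne τ hi
  rw [mem_act] at hw
  exact hw.2 (Or.inr ⟨i, j, Fin.last m, hij, hj', by omega, h2, h3⟩)

lemma not_K_low {m : ℕ} (τ : Equiv.Perm (Fin (m + 1))) {x y : ℕ} (hxy : x < y)
    (hy : y ≤ τ (Fin.last m)) : ¬ K τ x y := by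
  intro H
  have hL := (τ (Fin.last m)).2
  let i : Fin (m + 1) := τ.symm ⟨x, by omega⟩
  have hi : (τ i : ℕ) = x := by simp [i]
  have := H i (Fin.last m) (by omega) (by omega) hy
  exact absurd (lt_of_lt_of_le this (Fin.le_last _)) (lt_irrefl _)

/-- extending the upper end -/
lemma K_up {m : ℕ} (τ : Equiv.Perm (Fin (m + 1))) {x w w' : ℕ} (hw' : w' ∈ act B2413 m τ)
    (hLw : (τ (Fin.last m) : ℕ) < w) (hww : w ≤ w') (hK : K τ x w) : K τ x w' := by
  intro i j h1 h2 h3
  by_cases h4 : (τ i : ℕ) < w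
  · exact hK i j h1 h4 (by omega)
  · exact K_last τ hw' (by omega) i j (by omega) h2 h3

/-- the order of the sites -/
def rel {m : ℕ} (τ : Equiv.Perm (Fin (m + 1))) (a b : ℕ) : Prop :=
  (a ≤ τ (Fin.last m) ∧ b ≤ τ (Fin.last m) ∧ a < b) ∨
  ((τ (Fin.last m) : ℕ) < a ∧ (τ (Fin.last m) : ℕ) < b ∧ b < a) ∨
  ((τ (Fin.last m) : ℕ) < a ∧ b ≤ τ (Fin.last m) ∧ K τ b a) ∨
  (a ≤ τ (Fin.last m) ∧ (τ (Fin.last m) : ℕ) < b ∧ ¬ K τ a b)

lemma rel_irr {m : ℕ} (τ : Equiv.Perm (Fin (m + 1))) (a : ℕ) : ¬ rel τ a a := by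
  rintro (h | h | h | h) <;> omega

lemma rel_tot {m : ℕ} (τ : Equiv.Perm (Fin (m + 1))) (a b : ℕ) (h : a ≠ b) :
    rel τ a b ∨ rel τ b a := by
  unfold rel
  rcases Nat.lt_or_ge (τ (Fin.last m)) a with h1 | h1 <;>
    rcases Nat.lt_or_ge (τ (Fin.last m)) b with h2 | h2
  · rcases Nat.lt_or_ge a b with h3 | h3
    · exact Or.inr (Or.inr (Or.inl ⟨h2, h1, h3⟩))
    · exact Or.inl (Or.inr (Or.inl ⟨h1, h2, by omega⟩))
  · by_cases h3 : K τ b a
    · exact Or.inl (Or.inr (Or.inr (Or.inl ⟨h1, h2, h3⟩)))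
    · exact Or.inr (Or.inr (Or.inr (Or.inr ⟨h2, h1, h3⟩)))
  · by_cases h3 : K τ a b
    · exact Or.inr (Or.inr (Or.inr (Or.inl ⟨h2, h1, h3⟩)))
    · exact Or.inl (Or.inr (Or.inr (Or.inr ⟨h1, h2, h3⟩)))
  · rcases Nat.lt_or_ge a b with h3 | h3
    · exact Or.inl (Or.inl ⟨h1, h2, h3⟩)
    · exact Or.inr (Or.inl ⟨h2, h1, by omega⟩)

lemma rel_tr {m : ℕ} (τ : Equiv.Perm (Fin (m + 1))) : ∀ a ∈ act B2413 m τ, ∀ b ∈ act B2413 m τ,
    ∀ c ∈ act B2413 m τ, rel τ a b → rel τ b c → rel τ a c := by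
  intro a ha b hb c hc h1 h2
  rcases h1 with ⟨h1, h3, h4⟩ | ⟨h1, h3, h4⟩ | ⟨h1, h3, h4⟩ | ⟨h1, h3, h4⟩
  · rcases h2 with ⟨h5, h6, h7⟩ | ⟨h5, h6, h7⟩ | ⟨h5, h6, h7⟩ | ⟨h5, h6, h7⟩
    · exact Or.inl ⟨h1, h6, by omega⟩
    · omega
    · omega
    · exact Or.inr (Or.inr (Or.inr ⟨h1, h6, fun h => h7 (K_mono τ h4.le h)⟩))
  · rcases h2 with ⟨h5, h6, h7⟩ | ⟨h5, h6, h7⟩ | ⟨h5, h6, h7⟩ | ⟨h5, h6, h7⟩
    · omega
    · exact Or.inr (Or.inl ⟨h1, h6, by omega⟩)
    · exact Or.inr (Or.inr (Or.inl ⟨h1, h6, K_up τ ha h5 h4.le h7⟩))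
    · omega
  · rcases h2 with ⟨h5, h6, h7⟩ | ⟨h5, h6, h7⟩ | ⟨h5, h6, h7⟩ | ⟨h5, h6, h7⟩
    · exact Or.inr (Or.inr (Or.inl ⟨h1, h6, K_mono τ h7.le h4⟩))
    · omega
    · omega
    · refine Or.inr (Or.inl ⟨h1, h6, ?_⟩)
      by_contra h8
      exact h7 (K_up τ hc h1 (by omega) h4)
  · rcases h2 with ⟨h5, h6, h7⟩ | ⟨h5, h6, h7⟩ | ⟨h5, h6, h7⟩ | ⟨h5, h6, h7⟩
    · omega
    · exact Or.inr (Or.inr (Or.inr ⟨h1, h6, fun h => h4 (K_up τ hb h6 h7.le h)⟩))
    · refine Or.inl ⟨h1, h6, ?_⟩
      by_contra h8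
      exact h4 (K_mono τ (by omega) h7)
    · omega

/-- rank of a site -/
noncomputable def zz (m : ℕ) (τ : Equiv.Perm (Fin (m + 1))) (s : ℕ) : ℕ :=
  ((act B2413 m τ).filter fun u => rel τ u s).card

lemma zz_facts {m : ℕ} (τ : Equiv.Perm (Fin (m + 1))) :
    Set.InjOn (zz m τ) (act B2413 m τ : Set ℕ) ∧
    (act B2413 m τ).image (zz m τ) = range (act B2413 m τ).card ∧
    ∀ f : ℕ → ℤ, ∑ v ∈ act B2413 m τ, f (zz m τ v) = ∑ x ∈ range (act B2413 m τ).card, f x :=
  sum_rel (M := ℤ) (act B2413 m τ) (rel τ) (fun x _ => rel_irr τ x) (rel_tr τ)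
    (fun x _ y _ h => rel_tot τ x y h)

lemma zz_lt {m : ℕ} (τ : Equiv.Perm (Fin (m + 1))) {a b : ℕ} (ha : a ∈ act B2413 m τ)
    (hb : b ∈ act B2413 m τ) : zz m τ a < zz m τ b ↔ rel τ a b := by
  have h1 : ∀ a ∈ act B2413 m τ, ∀ b ∈ act B2413 m τ, rel τ a b → zz m τ a < zz m τ b := by
    intro a ha b hb h
    apply card_lt_card
    rw [ssubset_iff_of_subset]
    · exact ⟨a, by simp [ha, h], by simp [rel_irr τ a]⟩
    · intro u hu
      simp only [mem_filter] at hu ⊢
      exact ⟨hu.1, rel_tr τ u hu.1 a ha b hb hu.2 h⟩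
  constructor
  · intro h
    by_contra h2
    by_cases hab : a = b
    · subst hab
      omega
    · rcases rel_tot τ a b hab with h3 | h3
      · exact h2 h3
      · have := h1 b hb a ha h3
        omega
  · exact h1 a ha b hb

lemma zz_lt_card {m : ℕ} (τ : Equiv.Perm (Fin (m + 1))) {a : ℕ} (ha : a ∈ act B2413 m τ) :
    zz m τ a < (act B2413 m τ).card := by
  have := mem_image_of_mem (zz m τ) ha
  rw [(zz_facts τ).2.1, mem_range] at this
  exact this

/-- membership in the new set of sites -/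
lemma mem_act2413 {m : ℕ} (v : Fin (m + 2)) (τ : Equiv.Perm (Fin (m + 1)))
    (hv : (v : ℕ) ∈ act B2413 m τ) (w : ℕ) : w ∈ act B2413 (m + 1) (snocP v τ) ↔
    (w ∈ act B2413 m τ ∧ w < v ∧ w ≠ τ (Fin.last m)) ∨ w = v ∨
      ∃ u ∈ act B2413 m τ, v ≤ u ∧ K τ v u ∧ w = u + 1 := by
  have hv2 := v.2
  have hv1 : ¬ FB τ v ∧ ¬ P2413 τ v := by
    rw [mem_act, B2413] at hv
    tauto
  simp only [mem_act, B2413, fb_snocP, p2413_snocP]
  constructor
  · rintro ⟨h1, h2⟩
    push Not at h2
    obtain ⟨⟨h3, h4⟩, h5, h6⟩ := h2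
    rcases lt_trichotomy w v with h7 | h7 | h7
    · left
      refine ⟨⟨by omega, ?_⟩, h7, (h3 h7).2⟩
      rintro (h8 | h8)
      · exact (h3 h7).1 h8
      · exact h5 h7.le h8
    · exact Or.inr (Or.inl h7)
    · right; right
      refine ⟨w - 1, ⟨by omega, ?_⟩, by omega, (h6 h7).2, by omega⟩
      rintro (h8 | h8)
      · exact h4 h7 h8
      · exact (h6 h7).1 h8
  · rintro (⟨⟨h1, h2⟩, h3, h4⟩ | h1 | ⟨u, ⟨h1, h2⟩, h3, h4, h5⟩)
    · refine ⟨by omega, ?_⟩
      push Not at h2 ⊢
      exact ⟨⟨fun _ => ⟨h2.1, h4⟩, fun h => by omega⟩, fun _ => h2.2, fun h => by omega⟩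
    · subst h1
      refine ⟨by omega, ?_⟩
      push Not
      exact ⟨⟨fun h => by omega, fun h => by omega⟩, fun _ => hv1.2, fun h => by omega⟩
    · subst h5
      refine ⟨by omega, ?_⟩
      push Not at h2 ⊢
      refine ⟨⟨fun h => by omega, fun _ => by simpa using h2.1⟩, fun h => by omega,
        fun _ => ⟨by simpa using h2.2, by simpa using h4⟩⟩

lemma rel_new {m : ℕ} (v : Fin (m + 2)) (τ : Equiv.Perm (Fin (m + 1))) {u b : ℕ}
    (hvu : (v : ℕ) ≤ u) : rel (snocP v τ) b (u + 1) ↔ (b ≤ v ∧ ¬ K τ b u) ∨ (u + 1 < b) := by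
  unfold rel
  rw [sv_last]
  constructor
  · rintro (h | h | h | ⟨h1, h2, h3⟩)
    · omega
    · omega
    · omega
    · left
      refine ⟨h1, ?_⟩
      rwa [K_snoc_mid v τ h1 hvu] at h3
  · rintro (⟨h1, h2⟩ | h)
    · right; right; right
      refine ⟨h1, by omega, ?_⟩
      rwa [K_snoc_mid v τ h1 hvu]
    · right; left
      omega

/-- ranks of the new upper sites -/
lemma zz_up {m : ℕ} (v : Fin (m + 2)) (τ : Equiv.Perm (Fin (m + 1)))
    (hv : (v : ℕ) ∈ act B2413 m τ) {u : ℕ} (hu : u ∈ act B2413 m τ) (hvu : (v : ℕ) ≤ u)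
    (hK : K τ v u) : zz (m + 1) (snocP v τ) (u + 1) = zz m τ u := by
  have hcase : (u = v ∨ (τ (Fin.last m) : ℕ) < u) := by
    by_contra h
    push Not at h
    exact not_K_low τ (lt_of_le_of_ne hvu (Ne.symm h.1)) h.2 hK
  have himg : ((act B2413 (m + 1) (snocP v τ)).filter fun b => rel (snocP v τ) b (u + 1)) =
      ((act B2413 m τ).filter fun a => rel τ a u).image fun a : ℕ => if a < (v : ℕ) then a else a + 1 := by
    ext b
    rw [mem_filter, mem_act2413 v τ hv, rel_new v τ hvu, mem_image]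
    constructor
    · rintro ⟨h1, h2⟩
      rcases h1 with ⟨h1, h3, h4⟩ | rfl | ⟨w, h1, h3, h4, rfl⟩
      · refine ⟨b, ?_, by rw [if_pos h3]⟩
        have hbK : ¬ K τ b u := by
          rcases h2 with h2 | h2
          · exact h2.2
          · omega
        rw [mem_filter]
        refine ⟨h1, ?_⟩
        rcases Nat.lt_or_ge (τ (Fin.last m)) u with h5 | h5
        · have h6 : b ≤ τ (Fin.last m) := by
            by_contra h7
            exact hbK (K_mono τ (by omega) (K_last τ hu h5))
          exact Or.inr (Or.inr (Or.inr ⟨h6, h5, hbK⟩))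
        · exact Or.inl ⟨by omega, h5, by omega⟩
      · exfalso
        rcases h2 with h2 | h2
        · exact h2.2 hK
        · omega
      · refine ⟨w, ?_, by rw [if_neg (by omega)]⟩
        have huw : u < w := by
          rcases h2 with h2 | h2 <;> omega
        rw [mem_filter]
        refine ⟨h1, ?_⟩
        have hLw : (τ (Fin.last m) : ℕ) < w := by
          by_contra h5
          exact not_K_low τ (by omega) (by omega) h4
        rcases Nat.lt_or_ge (τ (Fin.last m)) u with h5 | h5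
        · exact Or.inr (Or.inl ⟨hLw, h5, huw⟩)
        · have h6 : u = v := by omega
          exact Or.inr (Or.inr (Or.inl ⟨hLw, h5, by rw [h6]; exact h4⟩))
    · rintro ⟨a, ha, rfl⟩
      rw [mem_filter] at ha
      obtain ⟨ha, hr⟩ := ha
      rcases hr with ⟨h1, h2, h3⟩ | ⟨h1, h2, h3⟩ | ⟨h1, h2, h3⟩ | ⟨h1, h2, h3⟩
      · have h4 : u = v := by omega
        rw [if_pos (by omega)]
        refine ⟨Or.inl ⟨ha, by omega, by omega⟩, Or.inl ⟨by omega, ?_⟩⟩
        rw [h4]
        exact not_K_low τ (by omega) (by omega)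
      · rw [if_neg (by omega)]
        refine ⟨Or.inr (Or.inr ⟨a, ha, by omega, ?_, rfl⟩), Or.inr (by omega)⟩
        exact K_up τ ha h2 h3.le hK
      · have h4 : u = v := by omega
        rw [if_neg (by omega)]
        refine ⟨Or.inr (Or.inr ⟨a, ha, by omega, ?_, rfl⟩), Or.inr (by omega)⟩
        rw [← h4]
        exact h3
      · have h4 : a ≠ τ (Fin.last m) := by
          rintro rfl
          exact h3 (K_last τ hu h2)
        have h5 : a < v := by
          by_contra h6
          exact h3 (K_mono τ (by omega) hK)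
        rw [if_pos h5]
        exact ⟨Or.inl ⟨ha, h5, h4⟩, Or.inl ⟨h5.le, h3⟩⟩
  unfold zz
  rw [himg, card_image_of_injOn]
  intro a _ b _ hab
  simp only at hab
  split_ifs at hab <;> omega

/-- the marks are the ranks of the upper sites -/
def Rep2413 (m : ℕ) (τ : Equiv.Perm (Fin (m + 1))) (s : ℕ × Finset ℕ) : Prop :=
  (act B2413 m τ).card = s.1 + 1 ∧
  ∀ w ∈ act B2413 m τ, (τ (Fin.last m) : ℕ) < w ↔ (zz m τ w = 0 ∨ zz m τ w ∈ s.2)

lemma rep2413_step {m : ℕ} (τ : Equiv.Perm (Fin (m + 1))) (s : ℕ × Finset ℕ)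
    (hV : V2413 (m + 1) τ) (hR : Rep2413 m τ s) (v : Fin (m + 2))
    (hv : (v : ℕ) ∈ act B2413 m τ) :
    Rep2413 (m + 1) (snocP v τ) (cs s (zz m τ v)) := by
  obtain ⟨hc, hL⟩ := hR
  have hLm := last_mem_act2413 τ hV
  have hcs : ∀ y, (y = 0 ∨ y ∈ (cs s (zz m τ v)).2) ↔
    (y = 0 ∨ y = zz m τ v ∨ (y ∈ s.2 ∧ y < zz m τ v)) := fun y => cs_mem
  have hzc := zz_lt_card τ hv
  -- the number of sites
  have hcard : (act B2413 (m + 1) (snocP v τ)).card = (cs s (zz m τ v)).1 + 1 := by
    by_cases hLv : (τ (Fin.last m) : ℕ) < v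
    · have hsp := (hL v hv).1 hLv
      have h1 : act B2413 (m + 1) (snocP v τ) =
          newS (((act B2413 m τ).filter fun u => u < (v : ℕ)).erase (τ (Fin.last m) : ℕ))
            (act B2413 m τ) v := by
        ext w
        rw [mem_act2413 v τ hv, mem_newS, mem_erase, mem_filter]
        constructor
        · rintro (⟨h1, h2, h3⟩ | h1 | ⟨u, h1, h2, h3, h4⟩)
          · exact Or.inl ⟨h3, h1, h2⟩
          · exact Or.inr (Or.inl h1)
          · exact Or.inr (Or.inr ⟨u, h1, h2, h4⟩)
        · rintro (⟨h3, h1, h2⟩ | h1 | ⟨u, h1, h2, h4⟩)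
          · exact Or.inl ⟨h1, h2, h3⟩
          · exact Or.inr (Or.inl h1)
          · exact Or.inr (Or.inr ⟨u, h1, h2, K_mono τ hLv.le (K_last τ h1 (by omega)), h4⟩)
      have h2 : (((act B2413 m τ).filter fun u => u < (v : ℕ)).erase
          (τ (Fin.last m) : ℕ)).card + 1 = ((act B2413 m τ).filter fun u => u < (v : ℕ)).card :=
        card_erase_add_one (mem_filter.2 ⟨hLm, hLv⟩)
      have h3 := card_below hv
      have h4 : (cs s (zz m τ v)).1 = s.1 := by
        unfold cs
        simp only [if_pos hsp]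
      rw [h1, card_newS _ hv, h4]
      · omega
      · intro x hx
        rw [mem_erase, mem_filter] at hx
        exact hx.2.2
    · have hsp : ¬ (zz m τ v = 0 ∨ zz m τ v ∈ s.2) := fun h => hLv ((hL v hv).2 h)
      have h4 : (cs s (zz m τ v)).1 = zz m τ v + 1 := by
        unfold cs
        simp only [if_neg hsp]
      have h1 : act B2413 (m + 1) (snocP v τ) = insert (v : ℕ) (insert ((v : ℕ) + 1)
          (((act B2413 m τ).filter fun a => rel τ a v).image
            fun a : ℕ => if a < (v : ℕ) then a else a + 1)) := by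
        ext w
        rw [mem_act2413 v τ hv, mem_insert, mem_insert, mem_image]
        constructor
        · rintro (⟨h1, h2, h3⟩ | h1 | ⟨u, h1, h2, h3, h5⟩)
          · right; right
            exact ⟨w, mem_filter.2 ⟨h1, Or.inl ⟨by omega, by omega, h2⟩⟩, by rw [if_pos h2]⟩
          · exact Or.inl h1
          · right
            rcases Nat.eq_or_lt_of_le h2 with h6 | h6
            · left
              omega
            · right
              refine ⟨u, mem_filter.2 ⟨h1, Or.inr (Or.inr (Or.inl ⟨?_, by omega, h3⟩))⟩,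
                by rw [if_neg (by omega), h5]⟩
              by_contra h7
              exact not_K_low τ h6 (by omega) h3
        · rintro (h1 | h1 | ⟨a, ha, h1⟩)
          · exact Or.inr (Or.inl h1)
          · exact Or.inr (Or.inr ⟨v, hv, le_rfl, K_self _ _, h1⟩)
          · rw [mem_filter] at ha
            obtain ⟨ha, hr⟩ := ha
            rcases hr with ⟨h2, h3, h5⟩ | ⟨h2, h3, h5⟩ | ⟨h2, h3, h5⟩ | ⟨h2, h3, h5⟩
            · rw [if_pos h5] at h1
              left
              subst h1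
              exact ⟨ha, h5, by omega⟩
            · omega
            · rw [if_neg (by omega)] at h1
              exact Or.inr (Or.inr ⟨a, ha, by omega, h5, h1.symm⟩)
            · omega
      rw [h1, card_insert_of_notMem, card_insert_of_notMem, card_image_of_injOn, h4]
      · rfl
      · intro a _ b _ hab
        simp only at hab
        split_ifs at hab <;> omega
      · rw [mem_image]
        rintro ⟨a, ha, h5⟩
        split_ifs at h5
        · omega
        · have : a = v := by omega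
          subst this
          exact rel_irr τ _ (mem_filter.1 ha).2
      · rw [mem_insert, mem_image]
        rintro (h5 | ⟨a, ha, h5⟩)
        · omega
        · split_ifs at h5 <;> omega
  refine ⟨hcard, ?_⟩
  intro w hw
  rw [sv_last, hcs]
  have hupper : ∀ u ∈ act B2413 m τ, (v : ℕ) ≤ u → K τ v u →
      (zz (m + 1) (snocP v τ) (u + 1) = 0 ∨ zz (m + 1) (snocP v τ) (u + 1) = zz m τ v ∨
        (zz (m + 1) (snocP v τ) (u + 1) ∈ s.2 ∧ zz (m + 1) (snocP v τ) (u + 1) < zz m τ v)) := by
    intro u hu hvu hK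
    rw [zz_up v τ hv hu hvu hK]
    rcases Nat.eq_or_lt_of_le hvu with h | h
    · right; left
      rw [h]
    · have hLu : (τ (Fin.last m) : ℕ) < u := by
        by_contra h5
        exact not_K_low τ h (by omega) hK
      have h1 := (hL u hu).1 hLu
      have h2 : zz m τ u < zz m τ v := by
        rw [zz_lt τ hu hv]
        by_cases hLv : (τ (Fin.last m) : ℕ) < v
        · exact Or.inr (Or.inl ⟨hLu, hLv, h⟩)
        · exact Or.inr (Or.inr (Or.inl ⟨hLu, by omega, hK⟩))
      rcases h1 with h1 | h1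
      · exact Or.inl h1
      · exact Or.inr (Or.inr ⟨h1, h2⟩)
  constructor
  · intro h
    rcases (mem_act2413 v τ hv w).1 hw with ⟨h1, h2, h3⟩ | h1 | ⟨u, h1, h2, h3, rfl⟩
    · omega
    · omega
    · exact hupper u h1 h2 h3
  · intro h
    -- find an upper site with the same rank
    have hex : ∃ u ∈ act B2413 m τ, (v : ℕ) ≤ u ∧ K τ v u ∧
        zz m τ u = zz (m + 1) (snocP v τ) w := by
      by_cases h0 : zz (m + 1) (snocP v τ) w = zz m τ v
      · exact ⟨v, hv, le_rfl, K_self _ _, h0.symm⟩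
      · have h1 : zz (m + 1) (snocP v τ) w < zz m τ v := by
          rcases h with h | h | h
          · omega
          · exact absurd h h0
          · exact h.2
        have h2 : zz (m + 1) (snocP v τ) w ∈ (act B2413 m τ).image (zz m τ) := by
          rw [(zz_facts τ).2.1, mem_range]
          omega
        obtain ⟨u, hu, hu2⟩ := mem_image.1 h2
        have h3 : (τ (Fin.last m) : ℕ) < u := by
          rw [hL u hu, hu2]
          rcases h with h | h | h
          · exact Or.inl h
          · exact absurd h h0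
          · exact Or.inr h.1
        have h4 : rel τ u v := by
          rw [← zz_lt τ hu hv, hu2]
          exact h1
        rcases h4 with h4 | h4 | h4 | h4
        · omega
        · exact ⟨u, hu, h4.2.2.le, K_mono τ h4.2.1.le (K_last τ hu h3), hu2⟩
        · exact ⟨u, hu, by omega, h4.2.2, hu2⟩
        · omega
    obtain ⟨u, hu, hvu, hK, hz⟩ := hex
    rw [← zz_up v τ hv hu hvu hK] at hz
    have hu' : u + 1 ∈ act B2413 (m + 1) (snocP v τ) := by
      rw [mem_act2413 v τ hv]
      exact Or.inr (Or.inr ⟨u, hu, hvu, hK, rfl⟩)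
    have := (zz_facts (snocP v τ)).1 hu' hw hz
    omega

theorem card2413 (n : ℕ) : cardV V2413 n = G n (1 : ℤ) := by
  rw [← TT_iter]
  apply cardV_eq V2413 B2413 v2413_snocP TT Rep2413
  · intro m τ s hV hR
    refine ⟨fun u => cs s (zz m τ u), ?_, ?_⟩
    · intro v hv
      exact rep2413_step τ s hV hR v hv
    · intro f
      rw [(zz_facts τ).2.2 (fun z => f (cs s z)), hR.1, sum_cs]
      rfl
  · refine ⟨?_, ?_⟩
    · intro i j k _ h
      exact absurd h (fin1_lt _ _)
    · intro i j k l h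
      exact absurd h (fin1_lt _ _)
  · have hB : ∀ u, ¬ B2413 1 1 u := by
      rintro u (⟨i, j, h1, _, _⟩ | ⟨i, j, k, h, _⟩)
      · have := i.2
        have := j.2
        omega
      · exact absurd h (fin1_lt _ _)
    have hL0 : (((1 : Equiv.Perm (Fin (0 + 1))) (Fin.last 0) : Fin (0 + 1)) : ℕ) = 0 := by
      have := ((1 : Equiv.Perm (Fin (0 + 1))) (Fin.last 0)).2
      omega
    have hK01 : K (1 : Equiv.Perm (Fin (0 + 1))) 0 1 := by
      intro i j h1 h2 h3
      have := ((1 : Equiv.Perm (Fin 1)) j).2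
      omega
    have hr10 : rel (m := 0) 1 1 0 := by
      right; right; left
      rw [hL0]
      exact ⟨by omega, le_rfl, hK01⟩
    have hr01 : ¬ rel (m := 0) 1 0 1 := by
      rintro (h | h | h | h)
      · rw [hL0] at h
        omega
      · rw [hL0] at h
        omega
      · rw [hL0] at h
        omega
      · exact h.2.2 hK01
    unfold Rep2413
    have hz1 : zz 0 1 1 = 0 := by
      unfold zz
      rw [act_one B2413 hB, card_eq_zero, filter_eq_empty_iff]
      intro x hx
      simp only [mem_insert, mem_singleton] at hx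
      rcases hx with rfl | rfl
      · exact hr01
      · exact rel_irr _ _
    have hz0 : zz 0 1 0 ≠ 0 := by
      unfold zz
      rw [act_one B2413 hB, ne_eq, card_eq_zero, filter_eq_empty_iff]
      intro H
      exact H (x := 1) (by simp) hr10
    rw [act_one B2413 hB]
    refine ⟨by simp, ?_⟩
    intro w hw
    simp only [mem_insert, mem_singleton] at hw
    rw [hL0]
    rcases hw with rfl | rfl
    · simp [hz0]
    · simp [hz1]

end Pool.Agent.R121.Fish
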