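import Pool.Agent.R121.Fish.Tree
import Pool.Agent.R121.Fish.Count2

set_option autoImplicit false

/-! The generating tree of the Fishburn permutations avoiding `2431`. -/

namespace Pool.Agent.R121.Fish

open Finset Pool.Agent.R121

attribute [local instance 10] Classical.propDecidable

/-- occurrence of `132` all of whose letters are at least `u` -/
def P2431 {n : ℕ} (τ : Equiv.Perm (Fin n)) (u : ℕ) : Prop :=
  ∃ i j k : Fin n, i < j ∧ j < k ∧ (τ i : ℕ) < τ k ∧ (τ k : ℕ) < τ j ∧ u ≤ τ i

/-- avoidance of `2431` -/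
def Av2431 {n : ℕ} (τ : Equiv.Perm (Fin n)) : Prop :=
  ∀ i j k l : Fin n, i < j → j < k → k < l → 
    ¬ ((τ l : ℕ) < τ i ∧ (τ i : ℕ) < τ k ∧ (τ k : ℕ) < τ j)

/-- valid permutations -/
def V2431 (n : ℕ) (τ : Equiv.Perm (Fin n)) : Prop := Fsh τ ∧ Av2431 τ

/-- forbidden sites -/
def B2431 (n : ℕ) (τ : Equiv.Perm (Fin n)) (u : ℕ) : Prop := FB τ u ∨ P2431 τ u

lemma av2431_snocP {n : ℕ} (v : Fin (n + 1)) (τ : Equiv.Perm (Fin n)) :
    Av2431 (snocP v τ) ↔ Av2431 τ ∧ ¬ P2431 τ v := by
  constructor
  · intro H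
    constructor
    · intro i j k l h1 h2 h3 ⟨h4, h5, h6⟩
      apply H i.castSucc j.castSucc k.castSucc l.castSucc (by simpa using h1) (by simpa using h2)
        (by simpa using h3)
      rw [sv_cast, sv_cast, sv_cast, sv_cast]
      split_ifs <;> omega
    · rintro ⟨i, j, k, h1, h2, h3, h4, h5⟩
      apply H i.castSucc j.castSucc k.castSucc (Fin.last n) (by simpa using h1) (by simpa using h2)
        (Fin.castSucc_lt_last k)
      rw [sv_cast, sv_cast, sv_cast, sv_last]
      split_ifs <;> omega
  · rintro ⟨H, hb⟩ i j k l h1 h2 h3 ⟨h4, h5, h6⟩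
    induction k using Fin.lastCases with
    | last => exact absurd (lt_of_lt_of_le h3 (Fin.le_last _)) (lt_irrefl _)
    | cast k =>
      induction j using Fin.lastCases with
      | last => exact absurd (lt_of_lt_of_le h2 (Fin.le_last _)) (lt_irrefl _)
      | cast j =>
        induction i using Fin.lastCases with
        | last => exact absurd (lt_of_lt_of_le h1 (Fin.le_last _)) (lt_irrefl _)
        | cast i =>
          simp only [Fin.castSucc_lt_castSucc_iff] at h1 h2
          induction l using Fin.lastCases with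
          | last =>
            rw [sv_cast, sv_last] at h4
            rw [sv_cast, sv_cast] at h5 h6
            exact hb ⟨i, j, k, h1, h2, by split_ifs at h5 <;> omega, by split_ifs at h6 <;> omega,
              by split_ifs at h4 <;> omega⟩
          | cast l =>
            simp only [Fin.castSucc_lt_castSucc_iff] at h3
            rw [sv_cast, sv_cast] at h4 h5 h6
            exact H i j k l h1 h2 h3 ⟨by split_ifs at h4 <;> omega, by split_ifs at h5 <;> omega,
              by split_ifs at h6 <;> omega⟩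

lemma v2431_snocP (n : ℕ) (v : Fin (n + 1)) (τ : Equiv.Perm (Fin n)) :
    V2431 (n + 1) (snocP v τ) ↔ V2431 n τ ∧ ¬ B2431 n τ v := by
  unfold V2431 B2431
  rw [fsh_snocP, av2431_snocP]
  tauto

lemma p2431_snocP {m : ℕ} (v : Fin (m + 2)) (τ : Equiv.Perm (Fin (m + 1))) (u : ℕ) :
    P2431 (snocP v τ) u ↔ (u ≤ v ∧ (P2431 τ u ∨ ¬ K τ u v)) ∨ (v < u ∧ P2431 τ (u - 1)) := by
  constructor
  · rintro ⟨i, j, k, h1, h2, h3, h4, h5⟩
    induction j using Fin.lastCases with
    | last => exact absurd (lt_of_lt_of_le h2 (Fin.le_last _)) (lt_irrefl _)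
    | cast j =>
      induction i using Fin.lastCases with
      | last => exact absurd (lt_of_lt_of_le h1 (Fin.le_last _)) (lt_irrefl _)
      | cast i =>
        simp only [Fin.castSucc_lt_castSucc_iff] at h1
        induction k using Fin.lastCases with
        | last =>
          rw [sv_cast, sv_last] at h3 h4
          rw [sv_cast] at h5
          left
          refine ⟨by split_ifs at h5 <;> split_ifs at h3 <;> omega, Or.inr ?_⟩
          intro H
          have := H i j (by split_ifs at h5 <;> split_ifs at h3 <;> omega)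
            (by split_ifs at h3 <;> omega) (by split_ifs at h4 <;> omega)
          exact absurd (this.trans h1) (lt_irrefl _)
        | cast k =>
          simp only [Fin.castSucc_lt_castSucc_iff] at h2
          rw [sv_cast, sv_cast] at h3 h4
          rw [sv_cast] at h5
          by_cases h6 : u ≤ v
          · exact Or.inl ⟨h6, Or.inl ⟨i, j, k, h1, h2, by split_ifs at h3 <;> omega,
              by split_ifs at h4 <;> omega, by split_ifs at h5 <;> omega⟩⟩
          · exact Or.inr ⟨by omega, ⟨i, j, k, h1, h2, by split_ifs at h3 <;> omega,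
              by split_ifs at h4 <;> omega, by split_ifs at h5 <;> omega⟩⟩
  · rintro (⟨h0, ⟨i, j, k, h1, h2, h3, h4, h5⟩ | h1⟩ | ⟨h0, ⟨i, j, k, h1, h2, h3, h4, h5⟩⟩)
    · refine ⟨i.castSucc, j.castSucc, k.castSucc, by simpa using h1, by simpa using h2, ?_, ?_, ?_⟩
      · rw [sv_cast, sv_cast]
        split_ifs <;> omega
      · rw [sv_cast, sv_cast]
        split_ifs <;> omega
      · rw [sv_cast]
        split_ifs <;> omega
    · unfold K at h1
      push Not at h1
      obtain ⟨i, j, h2, h3, h4, h5⟩ := h1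
      have hne : i ≠ j := by
        rintro rfl
        omega
      refine ⟨i.castSucc, j.castSucc, Fin.last _, by simpa using lt_of_le_of_ne h5 hne,
        Fin.castSucc_lt_last j, ?_, ?_, ?_⟩
      · rw [sv_cast, sv_last]
        split_ifs <;> omega
      · rw [sv_cast, sv_last]
        split_ifs <;> omega
      · rw [sv_cast]
        split_ifs <;> omega
    · refine ⟨i.castSucc, j.castSucc, k.castSucc, by simpa using h1, by simpa using h2, ?_, ?_, ?_⟩
      · rw [sv_cast, sv_cast]
        split_ifs <;> omega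
      · rw [sv_cast, sv_cast]
        split_ifs <;> omega
      · rw [sv_cast]
        split_ifs <;> omega

lemma last_mem_act2431 {m : ℕ} (τ : Equiv.Perm (Fin (m + 1))) (h : V2431 (m + 1) τ) :
    (τ (Fin.last m) : ℕ) ∈ act B2431 m τ := by
  rw [mem_act]
  refine ⟨by have := (τ (Fin.last m)).2; omega, ?_⟩
  rintro (h1 | ⟨i, j, k, h1, h2, h3, h4, h5⟩)
  · exact not_fb_last τ h1
  · by_cases hk : k = Fin.last m
    · subst hk
      omega
    · have hk' : k < Fin.last m := lt_of_le_of_ne (Fin.le_last _) hk
      have hi : i ≠ Fin.last m := by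
        rintro rfl
        exact absurd (lt_of_lt_of_le h1 (Fin.le_last _)) (lt_irrefl _)
      have := val_ne τ hi
      exact h.2 i j k (Fin.last m) h1 h2 hk' ⟨by omega, h3, h4⟩

/-- the surviving lower sites -/
noncomputable def S2431 (m : ℕ) (τ : Equiv.Perm (Fin (m + 1))) (v : ℕ) : Finset ℕ :=
  (act B2431 m τ).filter fun u => u < v ∧ u ≠ τ (Fin.last m) ∧ K τ u v

lemma act2431_snocP {m : ℕ} (v : Fin (m + 2)) (τ : Equiv.Perm (Fin (m + 1)))
    (hv : (v : ℕ) ∈ act B2431 m τ) :
    act B2431 (m + 1) (snocP v τ) = newS (S2431 m τ v) (act B2431 m τ) v := by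
  have hv2 := v.2
  have hv1 : ¬ FB τ v ∧ ¬ P2431 τ v := by
    rw [mem_act, B2431] at hv
    tauto
  ext w
  rw [mem_newS]
  simp only [S2431, mem_filter, mem_act, B2431, fb_snocP, p2431_snocP]
  constructor
  · rintro ⟨h1, h2⟩
    push Not at h2
    obtain ⟨⟨h3, h4⟩, h5, h6⟩ := h2
    rcases lt_trichotomy w v with h7 | h7 | h7
    · left
      refine ⟨⟨by omega, ?_⟩, h7, (h3 h7).2, (h5 h7.le).2⟩
      rintro (h8 | h8)
      · exact (h3 h7).1 h8
      · exact (h5 h7.le).1 h8
    · exact Or.inr (Or.inl h7)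
    · right; right
      refine ⟨w - 1, ⟨by omega, ?_⟩, by omega, by omega⟩
      rintro (h8 | h8)
      · exact h4 h7 h8
      · exact h6 h7 h8
  · rintro (⟨⟨h1, h2⟩, h3, h4, h5⟩ | h1 | ⟨u, ⟨h1, h2⟩, h3, h4⟩)
    · refine ⟨by omega, ?_⟩
      push Not at h2 ⊢
      exact ⟨⟨fun _ => ⟨h2.1, h4⟩, fun h => by omega⟩, fun _ => ⟨h2.2, h5⟩, fun h => by omega⟩
    · subst h1
      refine ⟨by omega, ?_⟩
      push Not
      exact ⟨⟨fun h => by omega, fun h => by omega⟩, fun _ => ⟨hv1.2, K_self _ _⟩,
        fun h => by omega⟩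
    · subst h4
      refine ⟨by omega, ?_⟩
      push Not at h2 ⊢
      refine ⟨⟨fun h => by omega, fun _ => by simpa using h2.1⟩, fun h => by omega,
        fun _ => by simpa using h2.2⟩

/-- the marks describe the relation `K` on the sites -/
def Rep2431 (m : ℕ) (τ : Equiv.Perm (Fin (m + 1))) (s : ℕ × Finset ℕ) : Prop :=
  (act B2431 m τ).card = s.1 + 1 ∧
  (∀ v ∈ act B2431 m τ, (ab (act B2431 m τ) v = 0 ∨ ab (act B2431 m τ) v ∈ s.2) →
    (τ (Fin.last m) : ℕ) < v) ∧
  ∀ x ∈ act B2431 m τ, ∀ v ∈ act B2431 m τ, x < v →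
    (K τ x v ↔ ab (act B2431 m τ) v = 0 ∨ ab (act B2431 m τ) v ∈ s.2)

/-- new state -/
def cs (s : ℕ × Finset ℕ) (z : ℕ) : ℕ × Finset ℕ :=
  (if z = 0 ∨ z ∈ s.2 then s.1 else z + 1, if z = 0 then ∅ else insert z (s.2.filter fun y => y < z))

lemma cs_mem {s : ℕ × Finset ℕ} {z y : ℕ} : (y = 0 ∨ y ∈ (cs s z).2) ↔
    (y = 0 ∨ y = z ∨ (y ∈ s.2 ∧ y < z)) := by
  unfold cs
  simp only
  split_ifs with h
  · subst h
    simp
  · simp

lemma sum_cs (f : ℕ × Finset ℕ → ℤ) (s : ℕ × Finset ℕ) :
    ∑ x ∈ range (s.1 + 1), f (cs s x) = T2 (fun h M => f (h, M)) s.1 s.2 := by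
  have h1 : range (s.1 + 1) = insert 0 (Icc 1 s.1) := by
    ext x
    simp only [mem_range, mem_insert, mem_Icc]
    omega
  rw [h1, sum_insert (by simp), T2]
  congr 1
  apply sum_congr rfl
  intro x hx
  rw [mem_Icc] at hx
  unfold cs
  have h0 : ¬ x = 0 := by omega
  simp only [h0, false_or, if_false]

lemma rep2431_step {m : ℕ} (τ : Equiv.Perm (Fin (m + 1))) (s : ℕ × Finset ℕ)
    (hV : V2431 (m + 1) τ) (hR : Rep2431 m τ s) (v : Fin (m + 2))
    (hv : (v : ℕ) ∈ act B2431 m τ) :
    Rep2431 (m + 1) (snocP v τ) (cs s (ab (act B2431 m τ) v)) := by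
  obtain ⟨hc, hL, hK⟩ := hR
  have hLm := last_mem_act2431 τ hV
  have hcs : ∀ y, (y = 0 ∨ y ∈ (cs s (ab (act B2431 m τ) v)).2) ↔
    (y = 0 ∨ y = (ab (act B2431 m τ) v) ∨ (y ∈ s.2 ∧ y < (ab (act B2431 m τ) v))) :=
    fun y => cs_mem
  unfold Rep2431
  rw [act2431_snocP v τ hv, sv_last]
  set A := act B2431 m τ with hA
  set S := S2431 m τ v with hS
  set z := ab A v with hz
  have hSlt : ∀ x ∈ S, x < (v : ℕ) := by
    intro x hx
    simp only [hS, S2431, mem_filter] at hx
    exact hx.2.1
  have hSA : ∀ x ∈ S, x ∈ A := by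
    intro x hx
    simp only [hS, S2431, mem_filter] at hx
    exact hx.1
  have hSK : ∀ x ∈ S, K τ x v := by
    intro x hx
    simp only [hS, S2431, mem_filter] at hx
    exact hx.2.2.2
  -- ranks
  have hlow : ∀ w ∈ newS S A v, w ≤ v → z + 1 ≤ ab (newS S A v) w := by
    intro w hw hwv
    rcases mem_newS.1 hw with h | h | ⟨u, h1, h2, h3⟩
    · have := ab_newS_lo hSlt hv h
      omega
    · rw [h, ab_newS_v hSlt hv]
    · omega
  have hlow' : ∀ w ∈ newS S A v, w ≤ v →
      ¬ (ab (newS S A v) w = 0 ∨ ab (newS S A v) w ∈ (cs s z).2) := by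
    intro w hw hwv
    have := hlow w hw hwv
    rw [hcs]
    omega
  refine ⟨?_, ?_, ?_⟩
  · rw [card_newS hSlt hv, ← hz]
    by_cases hsp : z = 0 ∨ z ∈ s.2
    · have hLv := hL v hv hsp
      have hS2 : S = (A.filter fun u => u < (v : ℕ)).erase (τ (Fin.last m) : ℕ) := by
        ext x
        simp only [hS, S2431, mem_erase, mem_filter]
        constructor
        · rintro ⟨h1, h2, h3, h4⟩
          exact ⟨h3, h1, h2⟩
        · rintro ⟨h3, h1, h2⟩
          exact ⟨h1, h2, h3, (hK x h1 v hv h2).2 hsp⟩
      have h3 : S.card + 1 = (A.filter fun u => u < (v : ℕ)).card := by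
        rw [hS2]
        exact card_erase_add_one (mem_filter.2 ⟨hLm, hLv⟩)
      have h4 := card_below hv
      unfold cs
      simp only [if_pos hsp]
      omega
    · have hS2 : S = ∅ := by
        ext x
        simp only [notMem_empty, iff_false]
        intro hx
        exact hsp ((hK x (hSA x hx) v hv (hSlt x hx)).1 (hSK x hx))
      rw [hS2, card_empty]
      unfold cs
      simp only [if_neg hsp]
      omega
  · intro w hw h1
    by_contra h2
    exact hlow' w hw (by omega) h1
  · intro x hx w hw hxw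
    by_cases hwv : w ≤ v
    · constructor
      · intro h
        exact absurd h (K_snoc_lo v τ hxw hwv)
      · intro h
        exact absurd h (hlow' w hw hwv)
    · obtain ⟨u, hu, hvu, rfl⟩ : ∃ u ∈ A, (v : ℕ) ≤ u ∧ w = u + 1 := by
        rcases mem_newS.1 hw with h | h | h
        · have := hSlt w h
          omega
        · omega
        · exact h
      rw [ab_newS_hi hSlt hvu, hcs]
      have hle : (v : ℕ) = u ∨ ab A u < z := by
        rcases Nat.eq_or_lt_of_le hvu with h | h
        · exact Or.inl h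
        · exact Or.inr (ab_lt hu h)
      by_cases hxv : x ≤ v
      · rw [K_snoc_mid v τ hxv hvu]
        have hxA : x ∈ A := by
          rcases mem_newS.1 hx with h | h | ⟨u', h1, h2, h3⟩
          · exact hSA x h
          · rw [h]; exact hv
          · omega
        rcases Nat.eq_or_lt_of_le hvu with h | h
        · constructor
          · intro _
            right; left
            rw [hz, h]
          · intro _
            rcases mem_newS.1 hx with h1 | h1 | ⟨u', h1, h2, h3⟩
            · rw [← h]
              exact hSK x h1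
            · rw [h1, ← h]
              exact K_self _ _
            · omega
        · have h5 := ab_lt hu h
          rw [hK x hxA u hu (by omega)]
          constructor
          · rintro (h6 | h6)
            · exact Or.inl h6
            · exact Or.inr (Or.inr ⟨h6, h5⟩)
          · rintro (h6 | h6 | h6)
            · exact Or.inl h6
            · omega
            · exact Or.inr h6.1
      · obtain ⟨x', hx', hvx', rfl⟩ : ∃ u ∈ A, (v : ℕ) ≤ u ∧ x = u + 1 := by
          rcases mem_newS.1 hx with h | h | h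
          · have := hSlt x h
            omega
          · omega
          · exact h
        rw [K_snoc_hi v τ hvx' hvu]
        have h5 : ab A u < z := ab_lt hu (by omega)
        rw [hK x' hx' u hu (by omega)]
        constructor
        · rintro (h6 | h6)
          · exact Or.inl h6
          · exact Or.inr (Or.inr ⟨h6, h5⟩)
        · rintro (h6 | h6 | h6)
          · exact Or.inl h6
          · omega
          · exact Or.inr h6.1

/-- transfer operator on pairs -/
def TT (f : ℕ × Finset ℕ → ℤ) (s : ℕ × Finset ℕ) : ℤ := T2 (fun h M => f (h, M)) s.1 s.2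

lemma TT_iter (n : ℕ) : (TT^[n] fun _ => 1) (1, ∅) = G n (1 : ℤ) := by
  have h1 : ∀ n, (TT^[n] fun _ => 1) = fun s => (T2^[n] fun _ _ => (1 : ℤ)) s.1 s.2 := by
    intro n
    induction n with
    | zero => rfl
    | succ n ih => rw [Function.iterate_succ_apply', ih, Function.iterate_succ_apply']; rfl
  rw [h1]
  simp only [G, E, one_pow]

lemma act_one (B : (n : ℕ) → Equiv.Perm (Fin n) → ℕ → Prop) (h : ∀ u, ¬ B 1 1 u) :
    act B 0 1 = {0, 1} := by
  ext u
  simp only [mem_act, mem_insert, mem_singleton]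
  constructor
  · rintro ⟨h1, _⟩
    omega
  · intro h1
    exact ⟨by omega, h u⟩

lemma fin1_lt (i j : Fin 1) : ¬ i < j := by
  intro h
  rw [Fin.lt_def] at h
  omega

theorem card2431 (n : ℕ) : cardV V2431 n = G n (1 : ℤ) := by
  rw [← TT_iter]
  apply cardV_eq V2431 B2431 v2431_snocP TT Rep2431
  · intro m τ s hV hR
    refine ⟨fun u => cs s (ab (act B2431 m τ) u), ?_, ?_⟩
    · intro v hv
      exact rep2431_step τ s hV hR v hv
    · intro f
      rw [(sum_ab (act B2431 m τ)).2.2 (fun z => f (cs s z)), hR.1, sum_cs]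
      rfl
  · refine ⟨?_, ?_⟩
    · intro i j k _ h
      exact absurd h (fin1_lt _ _)
    · intro i j k l h
      exact absurd h (fin1_lt _ _)
  · have hB : ∀ u, ¬ B2431 1 1 u := by
      rintro u (⟨i, j, h1, _, _⟩ | ⟨i, j, k, h, _⟩)
      · have := i.2
        have := j.2
        omega
      · exact absurd h (fin1_lt _ _)
    unfold Rep2431
    rw [act_one B2431 hB]
    refine ⟨by simp, ?_, ?_⟩
    · intro v hv h
      simp only [mem_insert, mem_singleton] at hv
      rcases hv with rfl | rfl
      · exfalso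
        have : ab {0, 1} 0 = 1 := by
          unfold ab
          rfl
        rw [this] at h
        simp at h
      · simp
    · intro x hx v hv hxv
      simp only [mem_insert, mem_singleton] at hx hv
      have hx0 : x = 0 := by omega
      have hv1 : v = 1 := by omega
      subst hx0 hv1
      constructor
      · intro _
        left
        unfold ab
        rfl
      · intro _ i j h1 h2 h3
        have := ((1 : Equiv.Perm (Fin 1)) j).2
        omega

end Pool.Agent.R121.Fish
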