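import Pool.Agent.R121.Fish.T2431
import Pool.Agent.R121.Fish.Count3

set_option autoImplicit false

/-! The generating tree of the Fishburn permutations avoiding `3241`. -/

namespace Pool.Agent.R121.Fish

open Finset Pool.Agent.R121

attribute [local instance 10] Classical.propDecidable

/-- occurrence of `213` all of whose letters are at least `u` -/
def P3241 {n : ℕ} (τ : Equiv.Perm (Fin n)) (u : ℕ) : Prop :=
  ∃ i j k : Fin n, i < j ∧ j < k ∧ (τ j : ℕ) < τ i ∧ (τ i : ℕ) < τ k ∧ u ≤ τ j

/-- avoidance of `3241` -/
def Av3241 {n : ℕ} (τ : Equiv.Perm (Fin n)) : Prop :=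
  ∀ i j k l : Fin n, i < j → j < k → k < l →
    ¬ ((τ l : ℕ) < τ j ∧ (τ j : ℕ) < τ i ∧ (τ i : ℕ) < τ k)

/-- valid permutations -/
def V3241 (n : ℕ) (τ : Equiv.Perm (Fin n)) : Prop := Fsh τ ∧ Av3241 τ

/-- forbidden sites -/
def B3241 (n : ℕ) (τ : Equiv.Perm (Fin n)) (u : ℕ) : Prop := FB τ u ∨ P3241 τ u

/-- the elements with values in `[x, y)` are increasing -/
def I {n : ℕ} (τ : Equiv.Perm (Fin n)) (x y : ℕ) : Prop :=
  ∀ i j : Fin n, i < j → x ≤ τ j → (τ j : ℕ) < τ i → y ≤ τ i

lemma I_self {n : ℕ} (τ : Equiv.Perm (Fin n)) (x : ℕ) : I τ x x := by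
  intro i j _ h2 h3
  omega

lemma I_mono {n : ℕ} (τ : Equiv.Perm (Fin n)) {x y y' : ℕ} (h : y ≤ y') (hI : I τ x y') :
    I τ x y := fun i j h1 h2 h3 => h.trans (hI i j h1 h2 h3)

lemma I_snoc_lo {n : ℕ} (v : Fin (n + 1)) (τ : Equiv.Perm (Fin n)) {x y : ℕ}
    (hy : y ≤ v) : I (snocP v τ) x y ↔ I τ x y := by
  constructor
  · intro H i j h1 h2 h3
    have := H i.castSucc j.castSucc (by simpa using h1) (by rw [sv_cast]; split_ifs <;> omega)
      (by rw [sv_cast, sv_cast]; split_ifs <;> omega)
    rw [sv_cast] at this
    split_ifs at this <;> omega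
  · intro H i j h1 h2 h3
    induction i using Fin.lastCases with
    | last => exact absurd (lt_of_lt_of_le h1 (Fin.le_last _)) (lt_irrefl _)
    | cast i =>
      rw [sv_cast] at h3 ⊢
      induction j using Fin.lastCases with
      | last =>
        rw [sv_last] at h3
        split_ifs at h3 ⊢ <;> omega
      | cast j =>
        simp only [Fin.castSucc_lt_castSucc_iff] at h1
        rw [sv_cast] at h2 h3
        by_cases hi : (τ i : ℕ) < v
        · rw [if_pos hi] at h3 ⊢
          apply H i j h1
          · split_ifs at h2 h3 <;> omega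
          · split_ifs at h3 <;> omega
        · rw [if_neg hi]
          omega

lemma I_snoc_mid {n : ℕ} (v : Fin (n + 1)) (τ : Equiv.Perm (Fin n)) {x : ℕ} (hx : x ≤ v) :
    I (snocP v τ) x (v + 1) ↔ I τ x v := by
  constructor
  · intro H i j h1 h2 h3
    have := H i.castSucc j.castSucc (by simpa using h1) (by rw [sv_cast]; split_ifs <;> omega)
      (by rw [sv_cast, sv_cast]; split_ifs <;> omega)
    rw [sv_cast] at this
    split_ifs at this <;> omega
  · intro H i j h1 h2 h3
    induction i using Fin.lastCases with
    | last => exact absurd (lt_of_lt_of_le h1 (Fin.le_last _)) (lt_irrefl _)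
    | cast i =>
      rw [sv_cast] at h3 ⊢
      induction j using Fin.lastCases with
      | last =>
        rw [sv_last] at h3
        split_ifs at h3 ⊢ <;> omega
      | cast j =>
        simp only [Fin.castSucc_lt_castSucc_iff] at h1
        rw [sv_cast] at h2 h3
        by_cases hi : (τ i : ℕ) < v
        · rw [if_pos hi] at h3 ⊢
          have := H i j h1 (by split_ifs at h2 h3 <;> omega) (by split_ifs at h3 <;> omega)
          omega
        · rw [if_neg hi]
          omega

lemma I_snoc_mid' {n : ℕ} (v : Fin (n + 1)) (τ : Equiv.Perm (Fin n)) {x y : ℕ} (hx : x ≤ v)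
    (hy : (v : ℕ) + 1 < y) (hy2 : y ≤ n + 1) : ¬ I (snocP v τ) x y := by
  intro H
  let i : Fin n := τ.symm ⟨v, by omega⟩
  have hi : (τ i : ℕ) = v := by simp [i]
  have := H i.castSucc (Fin.last n) (Fin.castSucc_lt_last i) (by rw [sv_last]; exact hx)
    (by rw [sv_last, sv_cast]; split_ifs <;> omega)
  rw [sv_cast] at this
  split_ifs at this <;> omega

lemma I_snoc_hi {n : ℕ} (v : Fin (n + 1)) (τ : Equiv.Perm (Fin n)) {x y : ℕ} (hx : (v : ℕ) ≤ x)
    (hy : (v : ℕ) ≤ y) : I (snocP v τ) (x + 1) (y + 1) ↔ I τ x y := by
  constructor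
  · intro H i j h1 h2 h3
    have := H i.castSucc j.castSucc (by simpa using h1) (by rw [sv_cast]; split_ifs <;> omega)
      (by rw [sv_cast, sv_cast]; split_ifs <;> omega)
    rw [sv_cast] at this
    split_ifs at this <;> omega
  · intro H i j h1 h2 h3
    induction i using Fin.lastCases with
    | last => exact absurd (lt_of_lt_of_le h1 (Fin.le_last _)) (lt_irrefl _)
    | cast i =>
      rw [sv_cast] at h3 ⊢
      induction j using Fin.lastCases with
      | last =>
        rw [sv_last] at h2
        omega
      | cast j =>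
        simp only [Fin.castSucc_lt_castSucc_iff] at h1
        rw [sv_cast] at h2 h3
        have := H i j h1 (by split_ifs at h2 <;> omega) (by split_ifs at h3 <;> omega)
        split_ifs at h2 h3 ⊢ <;> omega

lemma av3241_snocP {n : ℕ} (v : Fin (n + 1)) (τ : Equiv.Perm (Fin n)) :
    Av3241 (snocP v τ) ↔ Av3241 τ ∧ ¬ P3241 τ v := by
  constructor
  · intro H
    constructor
    · intro i j k l h1 h2 h3 ⟨h4, h5, h6⟩
      apply H i.castSucc j.castSucc k.castSucc l.castSucc (by simpa using h1) (by simpa using h2)
        (by simpa using h3)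
      rw [sv_cast, sv_cast, sv_cast, sv_cast]
      split_ifs <;> omega
    · rintro ⟨i, j, k, h1, h2, h3, h4, h5⟩
      apply H i.castSucc j.castSucc k.castSucc (Fin.last n) (by simpa using h1) (by simpa using h2)
        (Fin.castSucc_lt_last k)
      rw [sv_cast, sv_cast, sv_cast, sv_last]
      split_ifs <;> omega
  · rintro ⟨H, hb⟩ i j k l h1 h2 h3 ⟨h4, h5, h6⟩
    induction k using Fin.lastCases with
    | last => exact absurd (lt_of_lt_of_le h3 (Fin.le_last _)) (lt_irrefl _)
    | cast k =>
      induction j using Fin.lastCases with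
      | last => exact absurd (lt_of_lt_of_le h2 (Fin.le_last _)) (lt_irrefl _)
      | cast j =>
        induction i using Fin.lastCases with
        | last => exact absurd (lt_of_lt_of_le h1 (Fin.le_last _)) (lt_irrefl _)
        | cast i =>
          simp only [Fin.castSucc_lt_castSucc_iff] at h1 h2
          induction l using Fin.lastCases with
          | last =>
            rw [sv_cast, sv_last] at h4
            rw [sv_cast, sv_cast] at h5 h6
            exact hb ⟨i, j, k, h1, h2, by split_ifs at h5 <;> omega, by split_ifs at h6 <;> omega,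
              by split_ifs at h4 <;> omega⟩
          | cast l =>
            simp only [Fin.castSucc_lt_castSucc_iff] at h3
            rw [sv_cast, sv_cast] at h4 h5 h6
            exact H i j k l h1 h2 h3 ⟨by split_ifs at h4 <;> omega, by split_ifs at h5 <;> omega,
              by split_ifs at h6 <;> omega⟩

lemma v3241_snocP (n : ℕ) (v : Fin (n + 1)) (τ : Equiv.Perm (Fin n)) :
    V3241 (n + 1) (snocP v τ) ↔ V3241 n τ ∧ ¬ B3241 n τ v := by
  unfold V3241 B3241
  rw [fsh_snocP, av3241_snocP]
  tauto

lemma p3241_snocP {m : ℕ} (v : Fin (m + 2)) (τ : Equiv.Perm (Fin (m + 1))) (u : ℕ) :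
    P3241 (snocP v τ) u ↔ (u ≤ v ∧ (P3241 τ u ∨ ¬ I τ u v)) ∨ (v < u ∧ P3241 τ (u - 1)) := by
  constructor
  · rintro ⟨i, j, k, h1, h2, h3, h4, h5⟩
    induction j using Fin.lastCases with
    | last => exact absurd (lt_of_lt_of_le h2 (Fin.le_last _)) (lt_irrefl _)
    | cast j =>
      induction i using Fin.lastCases with
      | last => exact absurd (lt_of_lt_of_le h1 (Fin.le_last _)) (lt_irrefl _)
      | cast i =>
        simp only [Fin.castSucc_lt_castSucc_iff] at h1
        induction k using Fin.lastCases with
        | last =>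
          rw [sv_cast, sv_cast] at h3
          rw [sv_cast, sv_last] at h4
          rw [sv_cast] at h5
          have h6 : (τ i : ℕ) < v := by split_ifs at h4 <;> omega
          rw [if_pos h6] at h3 h4
          left
          refine ⟨by split_ifs at h5 <;> split_ifs at h3 <;> omega, Or.inr ?_⟩
          intro H
          have := H i j h1 (by split_ifs at h5 <;> split_ifs at h3 <;> omega)
            (by split_ifs at h3 <;> omega)
          omega
        | cast k =>
          simp only [Fin.castSucc_lt_castSucc_iff] at h2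
          rw [sv_cast, sv_cast] at h3 h4
          rw [sv_cast] at h5
          by_cases h6 : u ≤ v
          · exact Or.inl ⟨h6, Or.inl ⟨i, j, k, h1, h2, by split_ifs at h3 <;> omega,
              by split_ifs at h4 <;> omega, by split_ifs at h5 <;> omega⟩⟩
          · exact Or.inr ⟨by omega, ⟨i, j, k, h1, h2, by split_ifs at h3 <;> omega,
              by split_ifs at h4 <;> omega, by split_ifs at h5 <;> omega⟩⟩
  · rintro (⟨h0, ⟨i, j, k, h1, h2, h3, h4, h5⟩ | h1⟩ | ⟨h0, ⟨i, j, k, h1, h2, h3, h4, h5⟩⟩)
    · refine ⟨i.castSucc, j.castSucc, k.castSucc, by simpa using h1, by simpa using h2, ?_, ?_, ?_⟩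
      · rw [sv_cast, sv_cast]
        split_ifs <;> omega
      · rw [sv_cast, sv_cast]
        split_ifs <;> omega
      · rw [sv_cast]
        split_ifs <;> omega
    · unfold I at h1
      push Not at h1
      obtain ⟨i, j, h2, h3, h4, h5⟩ := h1
      refine ⟨i.castSucc, j.castSucc, Fin.last _, by simpa using h2,
        Fin.castSucc_lt_last j, ?_, ?_, ?_⟩
      · rw [sv_cast, sv_cast]
        split_ifs <;> omega
      · rw [sv_cast, sv_last]
        split_ifs <;> omega
      · rw [sv_cast]
        split_ifs <;> omega
    · refine ⟨i.castSucc, j.castSucc, k.castSucc, by simpa using h1, by simpa using h2, ?_, ?_, ?_⟩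
      · rw [sv_cast, sv_cast]
        split_ifs <;> omega
      · rw [sv_cast, sv_cast]
        split_ifs <;> omega
      · rw [sv_cast]
        split_ifs <;> omega

lemma last_mem_act3241 {m : ℕ} (τ : Equiv.Perm (Fin (m + 1))) (h : V3241 (m + 1) τ) :
    (τ (Fin.last m) : ℕ) ∈ act B3241 m τ := by
  rw [mem_act]
  refine ⟨by have := (τ (Fin.last m)).2; omega, ?_⟩
  rintro (h1 | ⟨i, j, k, h1, h2, h3, h4, h5⟩)
  · exact not_fb_last τ h1
  · by_cases hk : k = Fin.last m
    · subst hk
      omega
    · have hk' : k < Fin.last m := lt_of_le_of_ne (Fin.le_last _) hk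
      have hj : j ≠ Fin.last m := by
        rintro rfl
        exact absurd (lt_of_lt_of_le h2 (Fin.le_last _)) (lt_irrefl _)
      have := val_ne τ hj
      exact h.2 i j k (Fin.last m) h1 h2 hk' ⟨by omega, h3, h4⟩

/-- the surviving lower sites -/
noncomputable def S3241 (m : ℕ) (τ : Equiv.Perm (Fin (m + 1))) (v : ℕ) : Finset ℕ :=
  (act B3241 m τ).filter fun u => u < v ∧ u ≠ τ (Fin.last m) ∧ I τ u v

lemma act3241_snocP {m : ℕ} (v : Fin (m + 2)) (τ : Equiv.Perm (Fin (m + 1)))
    (hv : (v : ℕ) ∈ act B3241 m τ) :
    act B3241 (m + 1) (snocP v τ) = newS (S3241 m τ v) (act B3241 m τ) v := by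
  have hv2 := v.2
  have hv1 : ¬ FB τ v ∧ ¬ P3241 τ v := by
    rw [mem_act, B3241] at hv
    tauto
  ext w
  rw [mem_newS]
  simp only [S3241, mem_filter, mem_act, B3241, fb_snocP, p3241_snocP]
  constructor
  · rintro ⟨h1, h2⟩
    push Not at h2
    obtain ⟨⟨h3, h4⟩, h5, h6⟩ := h2
    rcases lt_trichotomy w v with h7 | h7 | h7
    · left
      refine ⟨⟨by omega, ?_⟩, h7, (h3 h7).2, (h5 h7.le).2⟩
      rintro (h8 | h8)
      · exact (h3 h7).1 h8
      · exact (h5 h7.le).1 h8
    · exact Or.inr (Or.inl h7)
    · right; right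
      refine ⟨w - 1, ⟨by omega, ?_⟩, by omega, by omega⟩
      rintro (h8 | h8)
      · exact h4 h7 h8
      · exact h6 h7 h8
  · rintro (⟨⟨h1, h2⟩, h3, h4, h5⟩ | h1 | ⟨u, ⟨h1, h2⟩, h3, h4⟩)
    · refine ⟨by omega, ?_⟩
      push Not at h2 ⊢
      exact ⟨⟨fun _ => ⟨h2.1, h4⟩, fun h => by omega⟩, fun _ => ⟨h2.2, h5⟩, fun h => by omega⟩
    · subst h1
      refine ⟨by omega, ?_⟩
      push Not
      exact ⟨⟨fun h => by omega, fun h => by omega⟩, fun _ => ⟨hv1.2, I_self _ _⟩,
        fun h => by omega⟩
    · subst h4
      refine ⟨by omega, ?_⟩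
      push Not at h2 ⊢
      refine ⟨⟨fun h => by omega, fun _ => by simpa using h2.1⟩, fun h => by omega,
        fun _ => by simpa using h2.2⟩

/-- the marks describe the relation `I` on the sites -/
def Rep3241 (m : ℕ) (τ : Equiv.Perm (Fin (m + 1))) (s : ℕ × ℕ × List ℕ) : Prop :=
  Good s.2.1 s.2.2 ∧ s.2.1 ≤ s.1 ∧
  (act B3241 m τ).card = s.1 + 2 ∧
  (∀ v ∈ act B3241 m τ, (τ (Fin.last m) : ℕ) < v ↔ ab (act B3241 m τ) v ≤ s.2.1) ∧
  ∀ x ∈ act B3241 m τ, ∀ v ∈ act B3241 m τ, x < v →
    (I τ x v ↔ s.2.1 ≤ ab (act B3241 m τ) v ∨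
      ab (act B3241 m τ) x ≤ nx s.2.1 s.2.2 (ab (act B3241 m τ) v))

/-- new state -/
def cs3 (s : ℕ × ℕ × List ℕ) (z : ℕ) : ℕ × ℕ × List ℕ :=
  (if s.2.1 < z then s.1 + 1 else nx s.1 (s.2.1 :: s.2.2) z, z,
    (s.2.1 :: s.2.2).filter fun y => y < z)

lemma filter_self {r z : ℕ} {rs : List ℕ} (h : Good r rs) (hz : r ≤ z) :
    rs.filter (fun y => decide (y < z)) = rs := by
  rw [List.filter_eq_self]
  intro y hy
  have := h.lt y hy
  simp only [decide_eq_true_eq]
  omega

lemma nx_filter {r : ℕ} {rs : List ℕ} (hg : Good r rs) : ∀ z y, y < r → y < z →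
    nx z ((r :: rs).filter fun w => w < z) y = min z (nx r rs y) := by
  induction hg with
  | base => intro z y h; omega
  | cons r r' rs h1 h2 ih =>
    intro z y hy hyz
    by_cases hrz : r < z
    · rw [List.filter_cons_of_pos (by simpa using hrz),
        filter_self (Good.cons r r' rs h1 h2) (le_of_lt hrz), nx, if_neg (by omega)]
      have := (Good.cons r r' rs h1 h2).nx y hy
      omega
    · rw [List.filter_cons_of_neg (by simpa using hrz)]
      by_cases hy2 : r' ≤ y
      · rw [List.filter_cons_of_pos (by simp; omega), nx, if_pos hy2, nx, if_pos hy2]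
        omega
      · rw [ih z y (by omega) hyz, nx, if_neg hy2]

lemma rep3241_step {m : ℕ} (τ : Equiv.Perm (Fin (m + 1))) (s : ℕ × ℕ × List ℕ)
    (hV : V3241 (m + 1) τ) (hR : Rep3241 m τ s) (v : Fin (m + 2))
    (hv : (v : ℕ) ∈ act B3241 m τ) :
    Rep3241 (m + 1) (snocP v τ) (cs3 s (ab (act B3241 m τ) v)) := by
  obtain ⟨hg, hrh, hc, hL, hI⟩ := hR
  have hLm := last_mem_act3241 τ hV
  have hv2 := v.2
  unfold Rep3241
  rw [act3241_snocP v τ hv, sv_last]
  have hAle : ∀ u ∈ act B3241 m τ, u < m + 2 := fun u hu => ((mem_act B3241).1 hu).1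
  set A := act B3241 m τ with hA
  set S := S3241 m τ v with hS
  set z := ab A v with hz
  obtain ⟨h, r, rs⟩ := s
  simp only at hg hrh hc hL hI
  have hSlt : ∀ x ∈ S, x < (v : ℕ) := by
    intro x hx
    simp only [hS, S3241, mem_filter] at hx
    exact hx.2.1
  have hSA : ∀ x ∈ S, x ∈ A := by
    intro x hx
    simp only [hS, S3241, mem_filter] at hx
    exact hx.1
  have hSI : ∀ x ∈ S, I τ x v := by
    intro x hx
    simp only [hS, S3241, mem_filter] at hx
    exact hx.2.2.2
  have hzc : z < A.card := ab_lt_card hv
  -- ranks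
  have hlow : ∀ w ∈ newS S A v, w ≤ v → z + 1 ≤ ab (newS S A v) w := by
    intro w hw hwv
    rcases mem_newS.1 hw with h | h | ⟨u, h1, h2, h3⟩
    · have := ab_newS_lo hSlt hv h
      omega
    · rw [h, ab_newS_v hSlt hv]
    · omega
  have hup : ∀ w ∈ newS S A v, (v : ℕ) < w → ∃ u ∈ A, (v : ℕ) ≤ u ∧ w = u + 1 := by
    intro w hw hwv
    rcases mem_newS.1 hw with h | h | h
    · have := hSlt w h
      omega
    · omega
    · exact h
  have hzle : ∀ u ∈ A, (v : ℕ) ≤ u → ab A u ≤ z := by
    intro u hu huv
    rcases Nat.eq_or_lt_of_le huv with h | h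
    · rw [hz, h]
    · exact (ab_lt hu h).le
  -- the number of survivors
  have hcard : S.card + z = (cs3 (h, r, rs) z).1 := by
    unfold cs3
    simp only
    have h4 := card_below hv
    rcases lt_trichotomy r z with hz2 | hz2 | hz2
    · rw [if_pos hz2]
      have hvL : ¬ (τ (Fin.last m) : ℕ) < v := by
        rw [hL v hv]
        omega
      have hS2 : S = A.filter fun u => u < (v : ℕ) := by
        ext x
        simp only [hS, S3241, mem_filter]
        constructor
        · rintro ⟨h1, h2, _⟩
          exact ⟨h1, h2⟩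
        · rintro ⟨h1, h2⟩
          exact ⟨h1, h2, by omega, (hI x h1 v hv h2).2 (Or.inl hz2.le)⟩
      rw [hS2]
      omega
    · rw [if_neg (by omega), nx, if_pos hz2.le]
      have hvL : (τ (Fin.last m) : ℕ) < v := by
        rw [hL v hv]
        omega
      have hS2 : S = (A.filter fun u => u < (v : ℕ)).erase (τ (Fin.last m) : ℕ) := by
        ext x
        simp only [hS, S3241, mem_erase, mem_filter]
        constructor
        · rintro ⟨h1, h2, h3, h4⟩
          exact ⟨h3, h1, h2⟩
        · rintro ⟨h3, h1, h2⟩
          exact ⟨h1, h2, h3, (hI x h1 v hv h2).2 (Or.inl hz2.le)⟩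
      have h3 : S.card + 1 = (A.filter fun u => u < (v : ℕ)).card := by
        rw [hS2]
        exact card_erase_add_one (mem_filter.2 ⟨hLm, hvL⟩)
      omega
    · rw [if_neg (by omega), nx, if_neg (by omega)]
      have hn := hg.nx z hz2
      have hS2 : S.image (ab A) = Ioc z (nx r rs z) := by
        ext y
        simp only [mem_image, mem_Ioc]
        constructor
        · rintro ⟨x, hx, rfl⟩
          refine ⟨ab_lt hv (hSlt x hx), ?_⟩
          have := (hI x (hSA x hx) v hv (hSlt x hx)).1 (hSI x hx)
          rcases this with h5 | h5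
          · omega
          · exact h5
        · rintro ⟨h5, h6⟩
          have h7 : y ∈ A.image (ab A) := by
            rw [(sum_ab A).2.1, mem_range]
            omega
          obtain ⟨x, hx, rfl⟩ := mem_image.1 h7
          refine ⟨x, ?_, rfl⟩
          have hxv : x < v := (ab_lt_iff hx hv).1 h5
          simp only [hS, S3241, mem_filter]
          refine ⟨hx, hxv, ?_, (hI x hx v hv hxv).2 (Or.inr h6)⟩
          have h8 : (τ (Fin.last m) : ℕ) < x := by
            rw [hL x hx]
            omega
          omega
      have h3 : S.card = nx r rs z - z := by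
        rw [← Nat.card_Ioc, ← hS2, card_image_of_injOn]
        intro a ha b hb hab
        exact (sum_ab A).1 (hSA a ha) (hSA b hb) hab
      omega
  refine ⟨?_, ?_, ?_, ?_, ?_⟩
  · -- good
    unfold cs3
    simp only
    by_cases hz2 : r < z
    · rw [List.filter_cons_of_pos (by simpa using hz2), filter_self hg hz2.le]
      exact Good.cons _ _ _ hg hz2
    · rw [List.filter_cons_of_neg (by simpa using hz2)]
      by_cases hz3 : z < r
      · exact hg.filter z hz3
      · have : z = r := by omega
        rw [this, filter_self hg le_rfl]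
        exact hg
  · rw [← hcard]
    unfold cs3
    simp only
    omega
  · rw [card_newS hSlt hv, ← hz, ← hcard]
    omega
  · intro w hw
    unfold cs3
    simp only
    by_cases hwv : (v : ℕ) < w
    · obtain ⟨u, hu, hvu, rfl⟩ := hup w hw hwv
      rw [ab_newS_hi hSlt hvu]
      have := hzle u hu hvu
      tauto
    · have := hlow w hw (by omega)
      omega
  · intro x hx w hw hxw
    unfold cs3
    simp only
    by_cases hwv : (v : ℕ) < w
    · obtain ⟨u, hu, hvu, rfl⟩ := hup w hw hwv
      rw [ab_newS_hi hSlt hvu]
      rcases Nat.eq_or_lt_of_le hvu with h | h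
      · subst h
        have h1 : x ≤ v := by omega
        rw [I_snoc_mid v τ h1, ← hz]
        constructor
        · intro _
          exact Or.inl le_rfl
        · intro _
          rcases mem_newS.1 hx with h1 | h1 | ⟨u', h1, h2, h3⟩
          · exact hSI x h1
          · rw [h1]
            exact I_self _ _
          · omega
      · have hy := ab_lt hu h
        rw [← hz] at hy
        by_cases hxv : x ≤ v
        · have h5 := hlow x hx hxv
          constructor
          · intro h6
            exact absurd h6 (I_snoc_mid' v τ hxv (by omega) (by have := hAle u hu; omega))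
          · rintro (h6 | h6)
            · omega
            · have hG : Good z ((r :: rs).filter fun y => y < z) := by
                by_cases hz2 : r < z
                · rw [List.filter_cons_of_pos (by simpa using hz2), filter_self hg hz2.le]
                  exact Good.cons _ _ _ hg hz2
                · rw [List.filter_cons_of_neg (by simpa using hz2)]
                  by_cases hz3 : z < r
                  · exact hg.filter z hz3
                  · have : z = r := by omega
                    rw [this, filter_self hg le_rfl]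
                    exact hg
              have := (hG.nx (ab A u) hy).2
              omega
        · obtain ⟨x', hx', hvx', rfl⟩ := hup x hx (by omega)
          rw [ab_newS_hi hSlt hvx', I_snoc_hi v τ hvx' hvu, hI x' hx' u hu (by omega)]
          have h5 := hzle x' hx' hvx'
          have h6 : ab A u < ab A x' := ab_lt hu (by omega)
          by_cases hry : r ≤ ab A u
          · constructor
            · intro _
              right
              rw [List.filter_cons_of_pos (by simp; omega), nx, if_pos hry]
              exact h5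
            · intro _
              exact Or.inl hry
          · rw [nx_filter hg z (ab A u) (by omega) hy]
            constructor
            · rintro (h7 | h7)
              · omega
              · right
                omega
            · rintro (h7 | h7)
              · omega
              · right
                omega
    · have h5 := hlow w hw (by omega)
      constructor
      · intro _
        left
        omega
      · intro _
        rw [I_snoc_lo v τ (by omega)]
        have hxS : x ∈ S := by
          rcases mem_newS.1 hx with h1 | h1 | ⟨u', h1, h2, h3⟩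
          · exact h1
          · omega
          · omega
        exact I_mono τ (by omega) (hSI x hxS)

/-- transfer operator on triples -/
def TT3 (f : ℕ × ℕ × List ℕ → ℤ) (s : ℕ × ℕ × List ℕ) : ℤ :=
  T3 (fun h r rs => f (h, r, rs)) s.1 s.2.1 s.2.2

lemma TT3_iter (n : ℕ) : (TT3^[n] fun _ => 1) (0, 0, []) = F3 n 0 0 [] := by
  have h1 : ∀ n, (TT3^[n] fun _ => 1) = fun s => (T3^[n] fun _ _ _ => (1 : ℤ)) s.1 s.2.1 s.2.2 := by
    intro n
    induction n with
    | zero => rfl
    | succ n ih => rw [Function.iterate_succ_apply', ih, Function.iterate_succ_apply']; rfl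
  rw [h1]
  rfl

theorem card3241 (n : ℕ) : cardV V3241 n = F3 n 0 0 [] := by
  rw [← TT3_iter]
  apply cardV_eq V3241 B3241 v3241_snocP TT3 Rep3241
  · intro m τ s hV hR
    refine ⟨fun u => cs3 s (ab (act B3241 m τ) u), ?_, ?_⟩
    · intro v hv
      exact rep3241_step τ s hV hR v hv
    · intro f
      rw [(sum_ab (act B3241 m τ)).2.2 (fun z => f (cs3 s z)), hR.2.2.1]
      rfl
  · refine ⟨?_, ?_⟩
    · intro i j k _ h
      exact absurd h (fin1_lt _ _)
    · intro i j k l h
      exact absurd h (fin1_lt _ _)
  · have hB : ∀ u, ¬ B3241 1 1 u := by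
      rintro u (⟨i, j, h1, _, _⟩ | ⟨i, j, k, h, _⟩)
      · have := i.2
        have := j.2
        omega
      · exact absurd h (fin1_lt _ _)
    unfold Rep3241
    rw [act_one B3241 hB]
    refine ⟨Good.base, le_rfl, by simp, ?_, ?_⟩
    · intro v hv
      simp only [mem_insert, mem_singleton] at hv
      rcases hv with rfl | rfl
      · have : ab {0, 1} 0 = 1 := by
          unfold ab
          rfl
        rw [this]
        simp
      · have : ab {0, 1} 1 = 0 := by
          unfold ab
          rfl
        rw [this]
        simp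
    · intro x hx v hv hxv
      simp only [mem_insert, mem_singleton] at hx hv
      have hx0 : x = 0 := by omega
      have hv1 : v = 1 := by omega
      subst hx0 hv1
      constructor
      · intro _
        exact Or.inl (Nat.zero_le _)
      · intro _ i j h1
        exact absurd h1 (fin1_lt _ _)

end Pool.Agent.R121.Fish
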