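import Pool.Agent.R121.GenTree

set_option autoImplicit false

/-! Generating trees of Fishburn permutations: general tools. -/

namespace Pool.Agent.R121.Fish

open Finset Pool.Agent.R121

attribute [local instance 10] Classical.propDecidable

/-! ### finite sets and ranks -/

/-- a sum over a finite set of a function of the rank with respect to a total order -/
lemma sum_rel {M : Type*} [AddCommMonoid M] (A : Finset ℕ) (r : ℕ → ℕ → Prop) [DecidableRel r]
    (irr : ∀ x ∈ A, ¬ r x x) (tr : ∀ x ∈ A, ∀ y ∈ A, ∀ z ∈ A, r x y → r y z → r x z)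
    (tot : ∀ x ∈ A, ∀ y ∈ A, x ≠ y → r x y ∨ r y x) :
    Set.InjOn (fun v => (A.filter fun u => r u v).card) (A : Set ℕ) ∧
    A.image (fun v => (A.filter fun u => r u v).card) = range A.card ∧
    ∀ f : ℕ → M, ∑ v ∈ A, f ((A.filter fun u => r u v).card) = ∑ x ∈ range A.card, f x := by
  have hlt : ∀ x ∈ A, ∀ y ∈ A, r x y →
      (A.filter fun u => r u x).card < (A.filter fun u => r u y).card := by
    intro x hx y hy hxy
    apply card_lt_card
    rw [ssubset_iff_of_subset]
    · exact ⟨x, by simp [hx, hxy], by simp [irr x hx]⟩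
    · intro u hu
      simp only [mem_filter] at hu ⊢
      exact ⟨hu.1, tr u hu.1 x hx y hy hu.2 hxy⟩
  have hinj : Set.InjOn (fun v => (A.filter fun u => r u v).card) (A : Set ℕ) := by
    intro x hx y hy hxy
    by_contra hne
    simp only at hxy
    rcases tot x hx y hy hne with h | h
    · have := hlt x hx y hy h
      omega
    · have := hlt y hy x hx h
      omega
  have himg : A.image (fun v => (A.filter fun u => r u v).card) = range A.card := by
    apply eq_of_subset_of_card_le
    · intro z hz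
      simp only [mem_image] at hz
      obtain ⟨v, hv, rfl⟩ := hz
      rw [mem_range]
      apply card_lt_card
      rw [ssubset_iff_of_subset (filter_subset _ _)]
      exact ⟨v, hv, by simp [irr v hv]⟩
    · rw [card_range, card_image_of_injOn hinj]
  refine ⟨hinj, himg, ?_⟩
  intro f
  rw [← himg, sum_image hinj]

/-- number of elements above -/
noncomputable def ab (A : Finset ℕ) (v : ℕ) : ℕ := (A.filter fun u => v < u).card

lemma sum_ab (A : Finset ℕ) :
    Set.InjOn (ab A) (A : Set ℕ) ∧ A.image (ab A) = range A.card ∧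
    ∀ f : ℕ → ℤ, ∑ v ∈ A, f (ab A v) = ∑ x ∈ range A.card, f x := by
  exact @sum_rel ℤ _ A (fun u v => v < u) (fun u v => Nat.decLt v u) (fun x _ => lt_irrefl x)
    (fun x _ y _ z _ h1 h2 => lt_trans h2 h1) (fun x _ y _ h => by omega)

lemma ab_lt {A : Finset ℕ} {x v : ℕ} (hv : v ∈ A) (h : x < v) : ab A v < ab A x := by
  apply card_lt_card
  rw [ssubset_iff_of_subset]
  · exact ⟨v, by simp [hv, h], by simp⟩
  · intro u hu
    simp only [mem_filter] at hu ⊢
    exact ⟨hu.1, by omega⟩

lemma ab_lt_iff {A : Finset ℕ} {x v : ℕ} (hx : x ∈ A) (hv : v ∈ A) : ab A v < ab A x ↔ x < v := by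
  constructor
  · intro h
    by_contra h2
    rcases Nat.lt_or_ge v x with h3 | h3
    · have := ab_lt hx h3
      omega
    · have : x = v := by omega
      subst this
      omega
  · exact ab_lt hv

lemma ab_lt_card {A : Finset ℕ} {x : ℕ} (hx : x ∈ A) : ab A x < A.card := by
  apply card_lt_card
  rw [ssubset_iff_of_subset (filter_subset _ _)]
  exact ⟨x, hx, by simp⟩

lemma card_below {A : Finset ℕ} {v : ℕ} (hv : v ∈ A) :
    (A.filter fun u => u < v).card + 1 + ab A v = A.card := by
  have h1 : A = (A.filter fun u => u < v) ∪ ({v} ∪ (A.filter fun u => v < u)) := by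
    ext u
    simp only [mem_union, mem_filter, mem_singleton]
    constructor
    · intro hu
      rcases lt_trichotomy u v with h | h | h
      · exact Or.inl ⟨hu, h⟩
      · exact Or.inr (Or.inl h)
      · exact Or.inr (Or.inr ⟨hu, h⟩)
    · rintro (h | rfl | h)
      · exact h.1
      · exact hv
      · exact h.1
  conv_rhs => rw [h1]
  rw [card_union_of_disjoint, card_union_of_disjoint, card_singleton]
  · unfold ab
    ring
  · rw [Finset.disjoint_left]
    intro u
    simp only [mem_singleton, mem_filter]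
    rintro rfl h
    omega
  · rw [Finset.disjoint_left]
    intro u
    simp only [mem_union, mem_singleton, mem_filter]
    rintro h1 (h2 | h2) <;> omega

/-- the new set of sites -/
noncomputable def newS (S A : Finset ℕ) (v : ℕ) : Finset ℕ :=
  S ∪ insert v ((A.filter fun u => v ≤ u).image fun u => u + 1)

lemma mem_newS {S A : Finset ℕ} {v w : ℕ} : w ∈ newS S A v ↔
    w ∈ S ∨ w = v ∨ ∃ u ∈ A, v ≤ u ∧ w = u + 1 := by
  simp only [newS, mem_union, mem_insert, mem_image, mem_filter]
  constructor
  · rintro (h | h | ⟨u, ⟨h1, h2⟩, h3⟩)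
    · exact Or.inl h
    · exact Or.inr (Or.inl h)
    · exact Or.inr (Or.inr ⟨u, h1, h2, h3.symm⟩)
  · rintro (h | h | ⟨u, h1, h2, h3⟩)
    · exact Or.inl h
    · exact Or.inr (Or.inl h)
    · exact Or.inr (Or.inr ⟨u, ⟨h1, h2⟩, h3.symm⟩)

section newS

variable {S A : Finset ℕ} {v : ℕ} (hS : ∀ x ∈ S, x < v) (hv : v ∈ A)

include hv in
lemma card_up : (A.filter fun u => v ≤ u).card = ab A v + 1 := by
  have h1 : (A.filter fun u => v ≤ u) = insert v (A.filter fun u => v < u) := by
    ext u
    simp only [mem_insert, mem_filter]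
    constructor
    · rintro ⟨h1, h2⟩
      rcases Nat.eq_or_lt_of_le h2 with h3 | h3
      · exact Or.inl h3.symm
      · exact Or.inr ⟨h1, h3⟩
    · rintro (rfl | ⟨h1, h2⟩)
      · exact ⟨hv, le_rfl⟩
      · exact ⟨h1, h2.le⟩
  rw [h1, card_insert_of_notMem (by simp)]
  rfl

lemma card_image_succ (T : Finset ℕ) : (T.image fun u => u + 1).card = T.card :=
  card_image_of_injective _ (add_left_injective 1)

include hS hv in
lemma card_newS : (newS S A v).card = S.card + (ab A v + 2) := by
  unfold newS
  rw [card_union_of_disjoint, card_insert_of_notMem, card_image_succ, card_up hv]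
  · simp only [mem_image, mem_filter, not_exists, not_and]
    intro x hx
    omega
  · rw [Finset.disjoint_left]
    intro x hx
    have := hS x hx
    simp only [mem_insert, mem_image, mem_filter, not_or, not_exists, not_and]
    refine ⟨by omega, ?_⟩
    intro y hy
    omega

include hS in
lemma ab_newS_hi {u : ℕ} (hu : v ≤ u) : ab (newS S A v) (u + 1) = ab A u := by
  unfold ab
  rw [← card_image_succ (A.filter fun w => u < w)]
  congr 1
  ext w
  simp only [mem_filter, mem_newS, mem_image]
  constructor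
  · rintro ⟨h1 | h1 | ⟨u', h1, h2, h3⟩, h4⟩
    · have := hS w h1
      omega
    · omega
    · exact ⟨u', ⟨h1, by omega⟩, h3.symm⟩
  · rintro ⟨u', ⟨h1, h2⟩, h3⟩
    exact ⟨Or.inr (Or.inr ⟨u', h1, by omega, h3.symm⟩), by omega⟩

include hS hv in
lemma ab_newS_v : ab (newS S A v) v = ab A v + 1 := by
  rw [← card_up hv]
  unfold ab
  rw [← card_image_succ (A.filter fun w => v ≤ w)]
  congr 1
  ext w
  simp only [mem_filter, mem_newS, mem_image]
  constructor
  · rintro ⟨h1 | h1 | ⟨u', h1, h2, h3⟩, h4⟩
    · have := hS w h1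
      omega
    · omega
    · exact ⟨u', ⟨h1, h2⟩, h3.symm⟩
  · rintro ⟨u', ⟨h1, h2⟩, h3⟩
    exact ⟨Or.inr (Or.inr ⟨u', h1, h2, h3.symm⟩), by omega⟩

include hS hv in
lemma ab_newS_lo {x : ℕ} (hx : x ∈ S) : ab A v + 2 ≤ ab (newS S A v) x := by
  have h1 := ab_newS_v hS hv
  have h2 : ab (newS S A v) v < ab (newS S A v) x :=
    ab_lt (mem_newS.2 (Or.inr (Or.inl rfl))) (hS x hx)
  omega

end newS

/-! ### counting by descendants -/

section count

variable (Valid : (n : ℕ) → Equiv.Perm (Fin n) → Prop)
  (Bad : (n : ℕ) → Equiv.Perm (Fin n) → ℕ → Prop)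

/-- number of descendants after `n` steps -/
noncomputable def dc : (n : ℕ) → (m : ℕ) → Equiv.Perm (Fin (m + 1)) → ℤ
  | 0, _, _ => 1
  | n + 1, m, τ => ∑ v : Fin (m + 2), if Bad (m + 1) τ v then 0 else dc n (m + 1) (snocP v τ)

/-- number of valid permutations of size `N + 1` -/
noncomputable def cardV (N : ℕ) : ℤ := ∑ τ : Equiv.Perm (Fin (N + 1)), if Valid (N + 1) τ then 1 else 0

variable (hVB : ∀ (n : ℕ) (v : Fin (n + 1)) (τ : Equiv.Perm (Fin n)),
  Valid (n + 1) (snocP v τ) ↔ Valid n τ ∧ ¬ Bad n τ v)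

include hVB in
lemma sum_dc (n : ℕ) : ∀ m, ∑ τ : Equiv.Perm (Fin (m + 1)),
    (if Valid (m + 1) τ then dc Bad n m τ else 0) = cardV Valid (m + n) := by
  induction n with
  | zero => intro m; simp only [dc]; rfl
  | succ n ih =>
    intro m
    rw [show m + (n + 1) = m + 1 + n by omega, ← ih (m + 1),
      sum_snocP (n := m + 1) (fun τ => if Valid (m + 1 + 1) τ then dc Bad n (m + 1) τ else 0)]
    apply sum_congr rfl
    intro τ _
    by_cases h : Valid (m + 1) τ
    · rw [if_pos h, dc]
      apply sum_congr rfl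
      intro v _
      by_cases h2 : Bad (m + 1) τ v
      · rw [if_pos h2, if_neg]
        rw [hVB]
        tauto
      · rw [if_neg h2, if_pos]
        rw [hVB]
        tauto
    · rw [if_neg h]
      symm
      apply sum_eq_zero
      intro v _
      rw [if_neg]
      rw [hVB]
      tauto

/-- the set of the allowed sites -/
noncomputable def act (m : ℕ) (τ : Equiv.Perm (Fin (m + 1))) : Finset ℕ :=
  (range (m + 2)).filter fun u => ¬ Bad (m + 1) τ u

lemma mem_act {m : ℕ} {τ : Equiv.Perm (Fin (m + 1))} {u : ℕ} :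
    u ∈ act Bad m τ ↔ u < m + 2 ∧ ¬ Bad (m + 1) τ u := by
  unfold act
  rw [mem_filter, mem_range]

variable {St : Type*} (T : (St → ℤ) → St → ℤ) (Rep : (m : ℕ) → Equiv.Perm (Fin (m + 1)) → St → Prop)

include hVB in
lemma dc_eq (step : ∀ m τ s, Valid (m + 1) τ → Rep m τ s → ∃ c : ℕ → St,
      (∀ v : Fin (m + 2), (v : ℕ) ∈ act Bad m τ → Rep (m + 1) (snocP v τ) (c v)) ∧
      ∀ f : St → ℤ, ∑ u ∈ act Bad m τ, f (c u) = T f s) (n : ℕ) :
    ∀ m τ s, Valid (m + 1) τ → Rep m τ s → dc Bad n m τ = (T^[n] fun _ => 1) s := by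
  induction n with
  | zero => intro m τ s _ _; rfl
  | succ n ih =>
    intro m τ s hV hR
    obtain ⟨c, hc1, hc2⟩ := step m τ s hV hR
    rw [Function.iterate_succ_apply', ← hc2, dc]
    have h1 : ∀ v : Fin (m + 2), (if Bad (m + 1) τ v then 0 else dc Bad n (m + 1) (snocP v τ)) =
        (fun u : ℕ => if u ∈ act Bad m τ then (T^[n] fun _ => 1) (c u) else 0) (v : ℕ) := by
      intro v
      have hv : (v : ℕ) ∈ act Bad m τ ↔ ¬ Bad (m + 1) τ v := by
        simp only [act, mem_filter, mem_range]
        have := v.2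
        tauto
      by_cases h2 : Bad (m + 1) τ v
      · rw [if_pos h2]
        simp only
        rw [if_neg (by rw [hv]; tauto)]
      · rw [if_neg h2]
        simp only
        rw [if_pos (hv.2 h2)]
        apply ih
        · rw [hVB]
          exact ⟨hV, h2⟩
        · exact hc1 v (hv.2 h2)
    rw [sum_congr rfl fun v _ => h1 v, Fin.sum_univ_eq_sum_range (fun u : ℕ => if u ∈ act Bad m τ then
      (T^[n] fun _ => 1) (c u) else 0), ← sum_filter]
    apply sum_congr _ fun _ _ => rfl
    ext u
    simp only [act, mem_filter, mem_range]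
    tauto

include hVB in
theorem cardV_eq (step : ∀ m τ s, Valid (m + 1) τ → Rep m τ s → ∃ c : ℕ → St,
      (∀ v : Fin (m + 2), (v : ℕ) ∈ act Bad m τ → Rep (m + 1) (snocP v τ) (c v)) ∧
      ∀ f : St → ℤ, ∑ u ∈ act Bad m τ, f (c u) = T f s)
    (s0 : St) (h1 : Valid 1 1) (h2 : Rep 0 1 s0) (n : ℕ) :
    cardV Valid n = (T^[n] fun _ => 1) s0 := by
  have h3 := sum_dc Valid Bad hVB n 0
  have h4 : cardV Valid (0 + n) = cardV Valid n := by rw [zero_add]
  rw [← h4, ← h3]
  have hu : (univ : Finset (Equiv.Perm (Fin (0 + 1)))) = {1} := by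
    ext σ
    simp only [mem_univ, mem_singleton, true_iff]
    ext i
    have e1 := (σ i).2
    have e2 := ((1 : Equiv.Perm (Fin (0 + 1))) i).2
    omega
  rw [hu, sum_singleton, if_pos h1]
  exact dc_eq Valid Bad hVB T Rep step n 0 1 s0 h1 h2

end count

/-! ### the Fishburn condition -/

lemma sv_cast {n : ℕ} (v : Fin (n + 1)) (τ : Equiv.Perm (Fin n)) (i : Fin n) :
    ((snocP v τ i.castSucc : Fin (n + 1)) : ℕ) = if (τ i : ℕ) < v then (τ i : ℕ) else τ i + 1 := by
  rw [snocP_castSucc, succAbove_val]

lemma sv_last {n : ℕ} (v : Fin (n + 1)) (τ : Equiv.Perm (Fin n)) :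
    ((snocP v τ (Fin.last n) : Fin (n + 1)) : ℕ) = v := by
  rw [snocP_last]

/-- the values are distinct -/
lemma val_ne {n : ℕ} (τ : Equiv.Perm (Fin n)) {i j : Fin n} (h : i ≠ j) : (τ i : ℕ) ≠ τ j :=
  fun h2 => h (τ.injective (Fin.ext h2))

/-- the Fishburn condition -/
def Fsh {n : ℕ} (τ : Equiv.Perm (Fin n)) : Prop :=
  ∀ i j k : Fin n, (j : ℕ) = i + 1 → j < k → ¬ ((τ k : ℕ) + 1 = τ i ∧ (τ i : ℕ) < τ j)

/-- the site `u` is forbidden by the Fishburn condition -/
def FB {n : ℕ} (τ : Equiv.Perm (Fin n)) (u : ℕ) : Prop :=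
  ∃ i j : Fin n, (j : ℕ) = i + 1 ∧ (τ i : ℕ) = u ∧ (τ i : ℕ) < τ j

lemma fsh_snocP {n : ℕ} (v : Fin (n + 1)) (τ : Equiv.Perm (Fin n)) :
    Fsh (snocP v τ) ↔ Fsh τ ∧ ¬ FB τ v := by
  constructor
  · intro H
    have hFB : ¬ FB τ v := by
      rintro ⟨i, j, h1, h2, h3⟩
      apply H i.castSucc j.castSucc (Fin.last n) (by simpa using h1) (Fin.castSucc_lt_last j)
      rw [sv_cast, sv_cast, sv_last]
      split_ifs <;> omega
    refine ⟨?_, hFB⟩
    intro i j k h1 h2 ⟨h3, h4⟩
    by_cases h5 : (τ i : ℕ) = v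
    · exact hFB ⟨i, j, h1, h5, h4⟩
    · apply H i.castSucc j.castSucc k.castSucc (by simpa using h1) (by simpa using h2)
      rw [sv_cast, sv_cast, sv_cast]
      split_ifs <;> omega
  · rintro ⟨H, hb⟩ i j k h1 h2 ⟨h3, h4⟩
    induction j using Fin.lastCases with
    | last => exact absurd (lt_of_lt_of_le h2 (Fin.le_last k)) (lt_irrefl _)
    | cast j =>
      induction i using Fin.lastCases with
      | last =>
        simp only [Fin.val_castSucc, Fin.val_last] at h1
        have := j.2
        omega
      | cast i =>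
        simp only [Fin.val_castSucc] at h1
        induction k using Fin.lastCases with
        | last =>
          rw [sv_cast, sv_last] at h3
          rw [sv_cast, sv_cast] at h4
          apply hb
          refine ⟨i, j, h1, ?_, ?_⟩
          · split_ifs at h3 <;> omega
          · split_ifs at h4 <;> omega
        | cast k =>
          simp only [Fin.castSucc_lt_castSucc_iff] at h2
          rw [sv_cast, sv_cast] at h3 h4
          have hne : (τ k : ℕ) ≠ τ i := by
            apply val_ne
            rintro rfl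
            rw [Fin.lt_def] at h2
            omega
          apply H i j k h1 h2
          split_ifs at h3 h4 <;> omega

lemma fb_snocP {m : ℕ} (v : Fin (m + 2)) (τ : Equiv.Perm (Fin (m + 1))) (u : ℕ) :
    FB (snocP v τ) u ↔ (u < v ∧ (FB τ u ∨ u = τ (Fin.last m))) ∨ (v < u ∧ FB τ (u - 1)) := by
  constructor
  · rintro ⟨i, j, h1, h2, h3⟩
    induction i using Fin.lastCases with
    | last =>
      simp only [Fin.val_last] at h1
      have := j.2
      omega
    | cast i =>
      induction j using Fin.lastCases with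
      | last =>
        simp only [Fin.val_castSucc, Fin.val_last] at h1
        have hi : i = Fin.last m := by
          apply Fin.ext
          simp only [Fin.val_last]
          omega
        subst hi
        rw [sv_cast] at h2
        rw [sv_cast, sv_last] at h3
        split_ifs at h2 h3
        · left
          exact ⟨by omega, Or.inr h2.symm⟩
        · omega
      | cast j =>
        simp only [Fin.val_castSucc] at h1
        rw [sv_cast] at h2
        rw [sv_cast, sv_cast] at h3
        by_cases h4 : (τ i : ℕ) < v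
        · left
          rw [if_pos h4] at h2 h3
          refine ⟨by omega, Or.inl ⟨i, j, h1, h2, ?_⟩⟩
          split_ifs at h3 <;> omega
        · right
          rw [if_neg h4] at h2 h3
          refine ⟨by omega, ⟨i, j, h1, by omega, ?_⟩⟩
          split_ifs at h3 <;> omega
  · rintro (⟨h1, ⟨i, j, h2, h3, h4⟩ | h2⟩ | ⟨h1, ⟨i, j, h2, h3, h4⟩⟩)
    · refine ⟨i.castSucc, j.castSucc, by simpa using h2, ?_, ?_⟩
      · rw [sv_cast]
        split_ifs <;> omega
      · rw [sv_cast, sv_cast]
        split_ifs <;> omega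
    · refine ⟨(Fin.last m).castSucc, Fin.last (m + 1), by simp, ?_, ?_⟩
      · rw [sv_cast]
        split_ifs <;> omega
      · rw [sv_cast, sv_last]
        split_ifs <;> omega
    · refine ⟨i.castSucc, j.castSucc, by simpa using h2, ?_, ?_⟩
      · rw [sv_cast]
        split_ifs <;> omega
      · rw [sv_cast, sv_cast]
        split_ifs <;> omega

lemma not_fb_last {m : ℕ} (τ : Equiv.Perm (Fin (m + 1))) : ¬ FB τ (τ (Fin.last m)) := by
  rintro ⟨i, j, h1, h2, h3⟩
  have : i = Fin.last m := τ.injective (Fin.ext h2)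
  subst this
  simp only [Fin.val_last] at h1
  have := j.2
  omega

/-! ### the relation `K` -/

/-- all elements with values in `[x, y)` come after all elements with values at least `y` -/
def K {n : ℕ} (τ : Equiv.Perm (Fin n)) (x y : ℕ) : Prop :=
  ∀ i j : Fin n, x ≤ τ i → (τ i : ℕ) < y → y ≤ τ j → j < i

lemma K_self {n : ℕ} (τ : Equiv.Perm (Fin n)) (x : ℕ) : K τ x x := by
  intro i j h1 h2
  omega

lemma K_mono {n : ℕ} (τ : Equiv.Perm (Fin n)) {x x' y : ℕ} (h : x ≤ x') (hK : K τ x y) :
    K τ x' y := fun i j h1 h2 h3 => hK i j (h.trans h1) h2 h3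

lemma K_snoc_lo {n : ℕ} (v : Fin (n + 1)) (τ : Equiv.Perm (Fin n)) {x y : ℕ} (hxy : x < y)
    (hy : y ≤ v) : ¬ K (snocP v τ) x y := by
  intro H
  have hv := v.2
  let i : Fin n := τ.symm ⟨x, by omega⟩
  have hi : (τ i : ℕ) = x := by simp [i]
  have := H i.castSucc (Fin.last n) (by rw [sv_cast]; split_ifs <;> omega)
    (by rw [sv_cast]; split_ifs <;> omega) (by rw [sv_last]; exact hy)
  exact absurd (lt_of_lt_of_le this (Fin.le_last _)) (lt_irrefl _)

lemma K_snoc_mid {n : ℕ} (v : Fin (n + 1)) (τ : Equiv.Perm (Fin n)) {x y : ℕ} (hx : x ≤ v)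
    (hy : (v : ℕ) ≤ y) : K (snocP v τ) x (y + 1) ↔ K τ x y := by
  constructor
  · intro H i j h1 h2 h3
    have := H i.castSucc j.castSucc (by rw [sv_cast]; split_ifs <;> omega)
      (by rw [sv_cast]; split_ifs <;> omega) (by rw [sv_cast]; split_ifs <;> omega)
    simpa using this
  · intro H i j h1 h2 h3
    induction j using Fin.lastCases with
    | last =>
      rw [sv_last] at h3
      omega
    | cast j =>
      induction i using Fin.lastCases with
      | last => exact Fin.castSucc_lt_last j
      | cast i =>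
        rw [sv_cast] at h1 h2 h3
        have := H i j (by split_ifs at h1 <;> omega) (by split_ifs at h2 <;> omega)
          (by split_ifs at h3 <;> omega)
        simpa using this

lemma K_snoc_hi {n : ℕ} (v : Fin (n + 1)) (τ : Equiv.Perm (Fin n)) {x y : ℕ} (hx : (v : ℕ) ≤ x)
    (hy : (v : ℕ) ≤ y) : K (snocP v τ) (x + 1) (y + 1) ↔ K τ x y := by
  constructor
  · intro H i j h1 h2 h3
    have := H i.castSucc j.castSucc (by rw [sv_cast]; split_ifs <;> omega)
      (by rw [sv_cast]; split_ifs <;> omega) (by rw [sv_cast]; split_ifs <;> omega)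
    simpa using this
  · intro H i j h1 h2 h3
    induction j using Fin.lastCases with
    | last =>
      rw [sv_last] at h3
      omega
    | cast j =>
      induction i using Fin.lastCases with
      | last => exact Fin.castSucc_lt_last j
      | cast i =>
        rw [sv_cast] at h1 h2 h3
        have := H i j (by split_ifs at h1 <;> omega) (by split_ifs at h2 <;> omega)
          (by split_ifs at h3 <;> omega)
        simpa using this

end Pool.Agent.R121.Fish
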